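import Pool.Agent.MP_e081a1_an.FreeQuot

/-!
The box space of the free group of rank two along the finite quotients of `FreeQuot`:
a metric space of bounded geometry.
-/

set_option autoImplicit false

namespace Pool.Agent.MPe081a1

/-- the finite quotient groups -/
abbrev Gn (n : ℕ) : Type := (phi n).range

/-- the quotient maps -/
noncomputable def pr (n : ℕ) : F2 →* Gn n := (phi n).rangeRestrict

lemma pr_surj (n : ℕ) : Function.Surjective (pr n) := (phi n).rangeRestrict_surjective

lemma pr_inj (n : ℕ) (w : F2) (hw : FreeGroup.norm w ≤ n) (h : pr n w = 1) : w = 1 := by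
  apply phi_inj n w hw
  have := congrArg Subtype.val h
  simpa [pr] using this

/-- word length in the quotient group -/
noncomputable def len (n : ℕ) (x : Gn n) : ℕ := sInf {k | ∃ w : F2, FreeGroup.norm w = k ∧ pr n w = x}

lemma exists_word (n : ℕ) (x : Gn n) : ∃ w : F2, FreeGroup.norm w = len n x ∧ pr n w = x := by
  have hne : {k | ∃ w : F2, FreeGroup.norm w = k ∧ pr n w = x}.Nonempty := by
    obtain ⟨w, hw⟩ := pr_surj n x
    exact ⟨_, w, rfl, hw⟩
  exact Nat.sInf_mem hne

lemma len_le (n : ℕ) (w : F2) : len n (pr n w) ≤ FreeGroup.norm w := Nat.sInf_le ⟨w, rfl, rfl⟩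

lemma len_one (n : ℕ) : len n 1 = 0 := by
  have := len_le n 1
  simpa using this

lemma len_inv_le (n : ℕ) (x : Gn n) : len n x⁻¹ ≤ len n x := by
  obtain ⟨w, hw, hx⟩ := exists_word n x
  have := len_le n w⁻¹
  rw [map_inv, hx, FreeGroup.norm_inv_eq, hw] at this
  exact this

lemma len_inv (n : ℕ) (x : Gn n) : len n x⁻¹ = len n x :=
  le_antisymm (len_inv_le n x) (by simpa using len_inv_le n x⁻¹)

lemma len_mul (n : ℕ) (x y : Gn n) : len n (x * y) ≤ len n x + len n y := by
  obtain ⟨w, hw, hx⟩ := exists_word n x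
  obtain ⟨v, hv, hy⟩ := exists_word n y
  have := len_le n (w * v)
  rw [map_mul, hx, hy] at this
  exact this.trans ((FreeGroup.norm_mul_le w v).trans (by omega))

lemma eq_one_of_len (n : ℕ) (x : Gn n) (h : len n x = 0) : x = 1 := by
  obtain ⟨w, hw, hx⟩ := exists_word n x
  rw [h, FreeGroup.norm_eq_zero] at hw
  rw [← hx, hw, map_one]

/-- the box space -/
structure Box : Type where
  /-- index of the component -/
  idx : ℕ
  /-- the element of the component -/
  val : Gn idx

/-- the integer valued distance -/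
noncomputable def D : Box → Box → ℕ
  | ⟨n, x⟩, ⟨m, y⟩ => if h : n = m then len m ((h ▸ x)⁻¹ * y) else n + m + len n x + len m y

lemma D_same (n : ℕ) (x y : Gn n) : D ⟨n, x⟩ ⟨n, y⟩ = len n (x⁻¹ * y) := by simp [D]

lemma D_diff (n m : ℕ) (h : n ≠ m) (x : Gn n) (y : Gn m) :
    D ⟨n, x⟩ ⟨m, y⟩ = n + m + len n x + len m y := by simp [D, h]

lemma D_self (a : Box) : D a a = 0 := by
  obtain ⟨n, x⟩ := a
  rw [D_same, inv_mul_cancel, len_one]

lemma D_comm (a b : Box) : D a b = D b a := by
  obtain ⟨n, x⟩ := a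
  obtain ⟨m, y⟩ := b
  by_cases h : n = m
  · subst h
    rw [D_same, D_same, ← len_inv]
    simp
  · rw [D_diff n m h, D_diff m n (Ne.symm h)]
    omega

lemma D_triangle (a b c : Box) : D a c ≤ D a b + D b c := by
  obtain ⟨n, x⟩ := a
  obtain ⟨m, y⟩ := b
  obtain ⟨k, z⟩ := c
  by_cases h : n = m
  · subst h
    by_cases h' : n = k
    · subst h'
      rw [D_same, D_same, D_same]
      have := len_mul n (x⁻¹ * y) (y⁻¹ * z)
      simpa [mul_assoc] using this
    · rw [D_diff n k h', D_diff n k h', D_same]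
      have h1 := len_mul n y (x⁻¹ * y)⁻¹
      rw [len_inv] at h1
      have h2 : y * (x⁻¹ * y)⁻¹ = x := by group
      rw [h2] at h1
      omega
  · by_cases h' : m = k
    · subst h'
      rw [D_diff n m h, D_diff n m h, D_same]
      have h1 := len_mul m y (y⁻¹ * z)
      have h2 : y * (y⁻¹ * z) = z := by group
      rw [h2] at h1
      omega
    · by_cases h'' : n = k
      · subst h''
        rw [D_same, D_diff n m h, D_diff m n h']
        have h1 := len_mul n x⁻¹ z
        rw [len_inv] at h1
        omega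
      · rw [D_diff n k h'', D_diff n m h, D_diff m k h']
        omega

lemma eq_of_D (a b : Box) (h : D a b = 0) : a = b := by
  obtain ⟨n, x⟩ := a
  obtain ⟨m, y⟩ := b
  by_cases hnm : n = m
  · subst hnm
    rw [D_same] at h
    have := eq_one_of_len n _ h
    have hxy : x = y := by
      have h3 : x * (x⁻¹ * y) = x := by rw [this, mul_one]
      rw [← h3]; group
    rw [hxy]
  · rw [D_diff n m hnm] at h
    omega

noncomputable instance : MetricSpace Box where
  dist a b := (D a b : ℝ)
  dist_self a := by rw [D_self]; simp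
  dist_comm a b := by rw [D_comm]
  dist_triangle a b c := by exact_mod_cast D_triangle a b c
  eq_of_dist_eq_zero {a b} h := eq_of_D a b (by exact_mod_cast h)

lemma dist_box (a b : Box) : dist a b = (D a b : ℝ) := rfl

/-- bounded geometry of the box space -/
lemma box_bg (R : ℝ) (_hR : 0 < R) : ∃ N : ℕ, ∀ x : Box,
    (Metric.ball x R).Finite ∧ (Metric.ball x R).ncard ≤ N := by
  classical
  set r : ℕ := ⌈R⌉₊ with hr
  have hRr : R ≤ r := Nat.le_ceil R
  have hB := finite_ball r
  let B : Finset F2 := hB.toFinset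
  let N1 : Finset (ℕ × F2) := Finset.range (r + 1) ×ˢ B
  refine ⟨B.card + N1.card, fun a => ?_⟩
  obtain ⟨n, x⟩ := a
  let F1 : Finset Box := B.image (fun w => ⟨n, x * pr n w⟩)
  let F3 : Finset Box := N1.image (fun q => ⟨q.1, pr q.1 q.2⟩)
  have hsub : Metric.ball (⟨n, x⟩ : Box) R ⊆ ((F1 ∪ F3 : Finset Box) : Set Box) := by
    rintro ⟨m, y⟩ hy
    rw [Metric.mem_ball, dist_box] at hy
    have hy' : D ⟨m, y⟩ ⟨n, x⟩ ≤ r := by
      have : (D ⟨m, y⟩ ⟨n, x⟩ : ℝ) ≤ r := le_trans hy.le hRr
      exact_mod_cast this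
    by_cases h : n = m
    · subst h
      rw [D_comm, D_same] at hy'
      obtain ⟨w, hw, hx⟩ := exists_word n (x⁻¹ * y)
      have : (⟨n, y⟩ : Box) ∈ F1 := by
        refine Finset.mem_image.mpr ⟨w, ?_, ?_⟩
        · rw [Set.Finite.mem_toFinset]
          show FreeGroup.norm w ≤ r
          omega
        · rw [hx]; simp
      simp [this]
    · rw [D_comm, D_diff n m h] at hy'
      obtain ⟨w, hw, hx⟩ := exists_word m y
      have : (⟨m, y⟩ : Box) ∈ F3 := by
        refine Finset.mem_image.mpr ⟨(m, w), ?_, ?_⟩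
        · rw [Finset.mem_product]
          refine ⟨Finset.mem_range.mpr (by simp; omega), ?_⟩
          rw [Set.Finite.mem_toFinset]
          show FreeGroup.norm w ≤ r
          omega
        · simp [hx]
      simp [this]
  refine ⟨(Finset.finite_toSet _).subset hsub, ?_⟩
  calc (Metric.ball (⟨n, x⟩ : Box) R).ncard ≤ ((F1 ∪ F3 : Finset Box) : Set Box).ncard :=
        Set.ncard_le_ncard hsub (Finset.finite_toSet _)
    _ = (F1 ∪ F3).card := Set.ncard_coe_finset _
    _ ≤ F1.card + F3.card := Finset.card_union_le _ _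
    _ ≤ B.card + N1.card := Nat.add_le_add Finset.card_image_le Finset.card_image_le

end Pool.Agent.MPe081a1
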