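import Pool.Agent.MP_e081a1_an.TwoPoint

/-!
From an almost norm preserving function of a lazy reversible Markov operator to a level set with
small boundary.
-/

set_option autoImplicit false

namespace Pool.Agent.MPe081a1

open Finset

variable {X : Type*} [DecidableEq X]

/-- data of a lazy reversible chain on the finite set `F` -/
structure Chain (F : Finset X) (μ : X → ℝ) (a : X → X → ℝ) : Prop where
  /-- positivity of the measure -/
  pos : ∀ x ∈ F, 0 < μ x
  /-- nonnegativity of the conductances -/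
  nonneg : ∀ x ∈ F, ∀ y ∈ F, 0 ≤ a x y
  /-- symmetry -/
  symm : ∀ x y, a x y = a y x
  /-- total conductance -/
  row : ∀ x ∈ F, ∑ y ∈ F, a x y = μ x
  /-- laziness -/
  lazy : ∀ x ∈ F, μ x / 2 ≤ a x x

/-- the Markov operator on functions -/
noncomputable def mk (F : Finset X) (μ : X → ℝ) (a : X → X → ℝ) (h : X → ℝ) (x : X) : ℝ :=
  ∑ y ∈ F, a x y / μ x * h y

lemma pointwise_gap {F : Finset X} {μ : X → ℝ} {a : X → X → ℝ} (hc : Chain F μ a) {q : ℝ}
    (hq : 1 < q) (h : X → ℝ) (hh : ∀ x, 0 ≤ h x) {x : X} (hx : x ∈ F) :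
    μ x * (mk F μ a h x) ^ q + 2 * ∑ y ∈ F, a x y * defect q (h x) (h y) ≤
      ∑ y ∈ F, a x y * (h y) ^ q := by
  have hμ : 0 < μ x := hc.pos x hx
  have hq0 : q ≠ 0 := by linarith
  -- weights
  let ω : X → ℝ := fun y => if y = x then 2 * a x x / μ x - 1 else 2 * a x y / μ x
  let z : X → ℝ := fun y => (h x + h y) / 2
  have hω0 : ∀ y ∈ F, 0 ≤ ω y := by
    intro y hy
    by_cases hyx : y = x
    · simp only [ω, hyx, if_true]
      have := hc.lazy x hx
      rw [sub_nonneg, le_div_iff₀ hμ]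
      linarith
    · simp only [ω, if_neg hyx]
      have := hc.nonneg x hx y hy
      positivity
  have hsplit : ∀ f : X → ℝ, ∑ y ∈ F, ω y * f y = ∑ y ∈ F, 2 * a x y / μ x * f y - f x := by
    intro f
    rw [← Finset.add_sum_erase F _ hx, ← Finset.add_sum_erase F (fun y => 2 * a x y / μ x * f y) hx]
    have : ∑ y ∈ F.erase x, ω y * f y = ∑ y ∈ F.erase x, 2 * a x y / μ x * f y := by
      refine Finset.sum_congr rfl fun y hy => ?_
      simp only [ω, if_neg (Finset.ne_of_mem_erase hy)]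
    rw [this]
    simp only [ω, if_true]
    ring
  have hrow : ∑ y ∈ F, 2 * a x y / μ x = 2 := by
    rw [← Finset.sum_div, ← Finset.mul_sum, hc.row x hx]
    field_simp
  have hω1 : ∑ y ∈ F, ω y = 1 := by
    have := hsplit (fun _ => 1)
    simp only [mul_one] at this
    rw [this, hrow]; norm_num
  have hmean : ∑ y ∈ F, ω y * z y = mk F μ a h x := by
    rw [hsplit]
    simp only [z, mk]
    have e1 : ∑ y ∈ F, 2 * a x y / μ x * ((h x + h y) / 2) =
        (∑ y ∈ F, 2 * a x y / μ x) * (h x / 2) + ∑ y ∈ F, a x y / μ x * h y := by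
      rw [Finset.sum_mul, ← Finset.sum_add_distrib]
      refine Finset.sum_congr rfl fun y _ => ?_
      ring
    rw [e1, hrow]
    ring
  have hJ := Real.rpow_arith_mean_le_arith_mean_rpow F ω z hω0 hω1
    (fun y _ => by simp only [z]; have := hh x; have := hh y; positivity) hq.le
  rw [hmean, hsplit] at hJ
  -- expand the right hand side
  have hz : ∀ y, z y ^ q = (h x ^ q + h y ^ q) / 2 - defect q (h x) (h y) := by
    intro y
    simp only [z, defect]; ring
  have hzx : z x ^ q = h x ^ q := by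
    simp only [z]; congr 1; ring
  have hR : ∑ y ∈ F, 2 * a x y / μ x * z y ^ q - z x ^ q =
      (∑ y ∈ F, a x y * h y ^ q - 2 * ∑ y ∈ F, a x y * defect q (h x) (h y)) / μ x := by
    rw [hzx]
    have e1 : ∑ y ∈ F, 2 * a x y / μ x * z y ^ q =
        (∑ y ∈ F, 2 * a x y / μ x) * (h x ^ q / 2) +
        (∑ y ∈ F, a x y * h y ^ q - 2 * ∑ y ∈ F, a x y * defect q (h x) (h y)) / μ x := by
      rw [Finset.sum_mul, Finset.mul_sum, ← Finset.sum_sub_distrib, Finset.sum_div,
        ← Finset.sum_add_distrib]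
      refine Finset.sum_congr rfl fun y _ => ?_
      rw [hz]
      field_simp
      ring
    rw [e1, hrow]
    ring
  rw [hR, le_div_iff₀ hμ] at hJ
  linarith

/-- the global gap inequality -/
lemma global_gap {F : Finset X} {μ : X → ℝ} {a : X → X → ℝ} (hc : Chain F μ a) {q : ℝ}
    (hq : 1 < q) (h : X → ℝ) (hh : ∀ x, 0 ≤ h x) :
    ∑ x ∈ F, μ x * (mk F μ a h x) ^ q + 2 * ∑ x ∈ F, ∑ y ∈ F, a x y * defect q (h x) (h y) ≤
      ∑ x ∈ F, μ x * (h x) ^ q := by
  have h1 : ∑ x ∈ F, (μ x * (mk F μ a h x) ^ q + 2 * ∑ y ∈ F, a x y * defect q (h x) (h y)) ≤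
      ∑ x ∈ F, ∑ y ∈ F, a x y * (h y) ^ q :=
    Finset.sum_le_sum fun x hx => pointwise_gap hc hq h hh hx
  rw [Finset.sum_add_distrib, ← Finset.mul_sum] at h1
  refine h1.trans (le_of_eq ?_)
  rw [Finset.sum_comm]
  refine Finset.sum_congr rfl fun y hy => ?_
  rw [← Finset.sum_mul]
  congr 1
  rw [← hc.row y hy]
  exact Finset.sum_congr rfl fun x _ => hc.symm x y

/-- the total variation of `h ^ q` is small if `h` is almost norm preserving -/
lemma tv_bound {q : ℝ} (hq : 1 < q) {κ : ℝ} (hκ : 0 < κ) :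
    ∃ δ : ℝ, 0 < δ ∧ ∀ (F : Finset X) (μ : X → ℝ) (a : X → X → ℝ), Chain F μ a →
      ∀ h : X → ℝ, (∀ x, 0 ≤ h x) →
      (1 - δ) * ∑ x ∈ F, μ x * (h x) ^ q ≤ ∑ x ∈ F, μ x * (mk F μ a h x) ^ q →
      ∑ x ∈ F, ∑ y ∈ F, a x y * |h x ^ q - h y ^ q| ≤ κ * ∑ x ∈ F, μ x * (h x) ^ q := by
  obtain ⟨C, hC, h2⟩ := two_point hq (show (0 : ℝ) < κ / 4 by positivity)
  refine ⟨κ / C, by positivity, ?_⟩
  intro F μ a hc h hh hδ
  have hgap := global_gap hc hq h hh
  set G := ∑ x ∈ F, μ x * (h x) ^ q with hG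
  have hD : ∑ x ∈ F, ∑ y ∈ F, a x y * defect q (h x) (h y) ≤ κ / C * G / 2 := by
    have : (1 - κ / C) * G = G - κ / C * G := by ring
    linarith
  have hsum : ∑ x ∈ F, ∑ y ∈ F, a x y * (h x ^ q + h y ^ q) = 2 * G := by
    have e1 : ∑ x ∈ F, ∑ y ∈ F, a x y * (h x ^ q + h y ^ q) =
        ∑ x ∈ F, ∑ y ∈ F, a x y * h x ^ q + ∑ x ∈ F, ∑ y ∈ F, a x y * h y ^ q := by
      rw [← Finset.sum_add_distrib]
      refine Finset.sum_congr rfl fun x _ => ?_
      rw [← Finset.sum_add_distrib]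
      exact Finset.sum_congr rfl fun y _ => mul_add _ _ _
    have e2 : ∑ x ∈ F, ∑ y ∈ F, a x y * h x ^ q = G := by
      refine Finset.sum_congr rfl fun x hx => ?_
      rw [← Finset.sum_mul, hc.row x hx]
    have e3 : ∑ x ∈ F, ∑ y ∈ F, a x y * h y ^ q = G := by
      rw [Finset.sum_comm, ← e2]
      refine Finset.sum_congr rfl fun x _ => Finset.sum_congr rfl fun y _ => ?_
      rw [hc.symm]
    rw [e1, e2, e3]; ring
  calc ∑ x ∈ F, ∑ y ∈ F, a x y * |h x ^ q - h y ^ q|
      ≤ ∑ x ∈ F, ∑ y ∈ F, (κ / 4 * (a x y * (h x ^ q + h y ^ q)) +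
          C * (a x y * defect q (h x) (h y))) := by
        refine Finset.sum_le_sum fun x hx => Finset.sum_le_sum fun y hy => ?_
        have h3 := h2 (h x) (h y) (hh x) (hh y)
        have h4 := hc.nonneg x hx y hy
        calc a x y * |h x ^ q - h y ^ q| ≤
            a x y * (κ / 4 * (h x ^ q + h y ^ q) + C * defect q (h x) (h y)) := by gcongr
          _ = _ := by ring
    _ = κ / 4 * ∑ x ∈ F, ∑ y ∈ F, a x y * (h x ^ q + h y ^ q) +
          C * ∑ x ∈ F, ∑ y ∈ F, a x y * defect q (h x) (h y) := by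
        simp only [Finset.sum_add_distrib, Finset.mul_sum]
    _ ≤ κ / 4 * (2 * G) + C * (κ / C * G / 2) := by
        rw [hsum]; gcongr
    _ = κ * G := by field_simp; ring

end Pool.Agent.MPe081a1
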