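import Pool.Agent.MP_e081a1_an.Level

/-!
Conductances attached to a finitely supported measure, and the passage from a small cut to a
small boundary.
-/

set_option autoImplicit false

namespace Pool.Agent.MPe081a1

open Finset

open Classical in
/-- off-diagonal conductances -/
noncomputable def cond {X : Type*} [MetricSpace X] (R : ℝ) (N : ℕ) (μ : X → ℝ) (x y : X) : ℝ :=
  if dist x y < R then min (μ x) (μ y) / (2 * N) else 0

open Classical in
/-- conductances, with the diagonal filling up the row sums -/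
noncomputable def aa {X : Type*} [MetricSpace X] (R : ℝ) (N : ℕ) (F : Finset X) (μ : X → ℝ)
    (x y : X) : ℝ :=
  if x = y then μ x - ∑ z ∈ F.erase x, cond R N μ x z else cond R N μ x y

variable {X : Type*} [MetricSpace X]

lemma cond_nonneg {R : ℝ} {N : ℕ} {μ : X → ℝ} (hμ : ∀ x, 0 ≤ μ x) (x y : X) :
    0 ≤ cond R N μ x y := by
  unfold cond
  split_ifs
  · have := hμ x
    have := hμ y
    have : 0 ≤ min (μ x) (μ y) := le_min (hμ x) (hμ y)
    positivity
  · exact le_rfl

lemma cond_symm {R : ℝ} {N : ℕ} {μ : X → ℝ} (x y : X) : cond R N μ x y = cond R N μ y x := by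
  unfold cond
  rw [dist_comm, min_comm]

open Classical in
lemma cond_sum_le {R : ℝ} {N : ℕ} (hN : 0 < N)
    (hball : ∀ x : X, (Metric.ball x R).Finite ∧ (Metric.ball x R).ncard ≤ N) {μ : X → ℝ}
    (hμ : ∀ x, 0 ≤ μ x) (F : Finset X) (x : X) :
    ∑ z ∈ F, cond R N μ x z ≤ μ x / 2 := by
  have h1 : ∑ z ∈ F, cond R N μ x z =
      ∑ z ∈ F.filter (fun z => dist x z < R), cond R N μ x z := by
    rw [Finset.sum_filter]
    refine Finset.sum_congr rfl fun z _ => ?_
    by_cases h : dist x z < R <;> simp [cond, h]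
  rw [h1]
  have h2 : ∀ z ∈ F.filter (fun z => dist x z < R), cond R N μ x z ≤ μ x / (2 * N) := by
    intro z hz
    have hz' := (Finset.mem_filter.mp hz).2
    simp only [cond, hz', if_true]
    have : min (μ x) (μ z) ≤ μ x := min_le_left _ _
    gcongr
  have h3 : (F.filter (fun z => dist x z < R)).card ≤ N := by
    refine le_trans ?_ (hball x).2
    rw [← Set.ncard_coe_finset]
    apply Set.ncard_le_ncard _ (hball x).1
    intro z hz
    simp only [coe_filter, Set.mem_ofPred_eq] at hz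
    rw [Metric.mem_ball, dist_comm]
    exact hz.2
  calc ∑ z ∈ F.filter (fun z => dist x z < R), cond R N μ x z
      ≤ ∑ _z ∈ F.filter (fun z => dist x z < R), μ x / (2 * N) := Finset.sum_le_sum h2
    _ = (F.filter (fun z => dist x z < R)).card * (μ x / (2 * N)) := by
        rw [Finset.sum_const, nsmul_eq_mul]
    _ ≤ N * (μ x / (2 * N)) := by
        have : 0 ≤ μ x / (2 * N) := by have := hμ x; positivity
        gcongr
    _ = μ x / 2 := by
        have : (N : ℝ) ≠ 0 := by positivity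
        field_simp

open Classical in
lemma aa_chain {R : ℝ} {N : ℕ} (hN : 0 < N)
    (hball : ∀ x : X, (Metric.ball x R).Finite ∧ (Metric.ball x R).ncard ≤ N) {μ : X → ℝ}
    (hμ : ∀ x, 0 ≤ μ x) (F : Finset X) (hF : ∀ x ∈ F, 0 < μ x) :
    Chain F μ (aa R N F μ) where
  pos := hF
  nonneg x _ y _ := by
    unfold aa
    split_ifs
    · have := cond_sum_le hN hball hμ (F.erase x) x
      have := hμ x
      linarith
    · exact cond_nonneg hμ x y
  symm x y := by
    unfold aa
    by_cases h : x = y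
    · subst h; rfl
    · rw [if_neg h, if_neg (Ne.symm h), cond_symm]
  row x hx := by
    rw [← Finset.add_sum_erase F _ hx]
    have : ∑ y ∈ F.erase x, aa R N F μ x y = ∑ y ∈ F.erase x, cond R N μ x y := by
      refine Finset.sum_congr rfl fun y hy => ?_
      unfold aa
      rw [if_neg (Finset.ne_of_mem_erase hy).symm]
    rw [this]
    simp only [aa, if_true]
    ring
  lazy x _ := by
    simp only [aa, if_true]
    have := cond_sum_le hN hball hμ (F.erase x) x
    linarith

open Classical in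
lemma sum_biUnion_le' {Y Z : Type*} (s : Finset Y) (f : Y → Finset Z) (g : Z → ℝ)
    (hg : ∀ z, 0 ≤ g z) : ∑ z ∈ s.biUnion f, g z ≤ ∑ y ∈ s, ∑ z ∈ f y, g z := by
  induction s using Finset.induction_on with
  | empty => simp
  | insert a s ha ih =>
    rw [Finset.biUnion_insert, Finset.sum_insert ha]
    have h1 : ∑ z ∈ f a ∪ s.biUnion f, g z ≤ ∑ z ∈ f a, g z + ∑ z ∈ s.biUnion f, g z := by
      rw [← Finset.sum_union_inter]
      have : 0 ≤ ∑ z ∈ f a ∩ s.biUnion f, g z := Finset.sum_nonneg fun z _ => hg z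
      linarith
    linarith

open Classical in
/-- from a set with small cut to a set with small boundary -/
lemma fix_boundary {R : ℝ} (hR : 0 < R) {N : ℕ} (hN : 0 < N)
    (hball : ∀ x : X, (Metric.ball x R).Finite ∧ (Metric.ball x R).ncard ≤ N) {ε : ℝ}
    (hε : 0 < ε) :
    ∃ κ : ℝ, 0 < κ ∧ ∀ (μ : X → ℝ) (_ : ∀ x, 0 ≤ μ x) (F E₀ : Finset X)
      (_ : ∀ x, x ∈ F ↔ 0 < μ x) (_ : E₀ ⊆ F) (_ : E₀.Nonempty)
      (_ : ∑ x ∈ E₀, ∑ y ∈ F \ E₀, aa R N F μ x y ≤ κ * ∑ x ∈ E₀, μ x),
      ∃ E : Set X, (E₀ : Set X) ⊆ E ∧ (∀ y ∈ E, ∃ x ∈ E₀, dist x y < R) ∧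
        0 < ∑ x ∈ F.filter (· ∈ E), μ x ∧
        ∑ x ∈ F.filter (fun x => x ∈ E ∧ ∃ y ∉ E, dist x y < R), μ x ≤
          ε * ∑ x ∈ F.filter (· ∈ E), μ x := by
  have hN' : (0 : ℝ) < N := by exact_mod_cast hN
  -- the threshold
  obtain ⟨l, hl0, hl1, hlN⟩ : ∃ l : ℝ, 0 < l ∧ l ≤ 1 ∧ N * l ≤ ε / 2 := by
    refine ⟨min 1 (ε / (2 * N)), by positivity, min_le_left _ _, ?_⟩
    calc (N : ℝ) * min 1 (ε / (2 * N)) ≤ N * (ε / (2 * N)) := by
          gcongr; exact min_le_right _ _
      _ = ε / 2 := by field_simp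
  refine ⟨ε * l / (4 * N), by positivity, ?_⟩
  intro μ hμ F E₀ hF hE₀ hne hcut
  set m := ∑ x ∈ E₀, μ x with hm
  have hmpos : 0 < m := Finset.sum_pos (fun x hx => (hF x).mp (hE₀ hx)) hne
  obtain ⟨E, hE⟩ : ∃ E : Set X, ∀ y, y ∈ E ↔ (y ∈ E₀ ∨ ∃ x ∈ E₀, dist x y < R ∧ μ y < l * μ x) :=
    ⟨{y | y ∈ E₀ ∨ ∃ x ∈ E₀, dist x y < R ∧ μ y < l * μ x}, fun _ => Iff.rfl⟩
  have hsub : (E₀ : Set X) ⊆ E := fun x hx => (hE x).mpr (Or.inl hx)
  have hmle : m ≤ ∑ x ∈ F.filter (· ∈ E), μ x :=
    Finset.sum_le_sum_of_subset_of_nonneg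
      (fun x hx => Finset.mem_filter.mpr ⟨hE₀ hx, hsub hx⟩) (fun x _ _ => hμ x)
  refine ⟨E, hsub, ?_, lt_of_lt_of_le hmpos hmle, ?_⟩
  · intro y hyE
    rcases (hE y).mp hyE with hy | ⟨x, hx, hxy, _⟩
    · exact ⟨y, hy, by rw [dist_self]; exact hR⟩
    · exact ⟨x, hx, hxy⟩
  · -- split the boundary
    have hsplit : F.filter (fun x => x ∈ E ∧ ∃ y ∉ E, dist x y < R) ⊆
        (E₀.filter (fun x => ∃ y ∉ E, dist x y < R)) ∪ (F.filter (fun y => y ∈ E ∧ y ∉ E₀)) := by
      intro x hx
      obtain ⟨hxF, hxE, hxb⟩ := Finset.mem_filter.mp hx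
      by_cases h : x ∈ E₀
      · exact Finset.mem_union_left _ (Finset.mem_filter.mpr ⟨h, hxb⟩)
      · exact Finset.mem_union_right _ (Finset.mem_filter.mpr ⟨hxF, hxE, h⟩)
    -- the added points
    have hadd : ∑ y ∈ F.filter (fun y => y ∈ E ∧ y ∉ E₀), μ y ≤ N * l * m := by
      have h1 : F.filter (fun y => y ∈ E ∧ y ∉ E₀) ⊆
          E₀.biUnion (fun x => F.filter (fun y => dist x y < R ∧ μ y < l * μ x)) := by
        intro y hy
        obtain ⟨hyF, hyE, hyE₀⟩ := Finset.mem_filter.mp hy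
        rcases (hE y).mp hyE with h | ⟨x, hx, hxy⟩
        · exact absurd h hyE₀
        · exact Finset.mem_biUnion.mpr ⟨x, hx, Finset.mem_filter.mpr ⟨hyF, hxy⟩⟩
      have h2 : ∀ x ∈ E₀, ∑ y ∈ F.filter (fun y => dist x y < R ∧ μ y < l * μ x), μ y ≤
          N * (l * μ x) := by
        intro x hx
        have hμx := (hF x).mp (hE₀ hx)
        have hcard : (F.filter (fun y => dist x y < R ∧ μ y < l * μ x)).card ≤ N := by
          refine le_trans ?_ (hball x).2
          rw [← Set.ncard_coe_finset]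
          apply Set.ncard_le_ncard _ (hball x).1
          intro z hz
          simp only [coe_filter, Set.mem_ofPred_eq] at hz
          rw [Metric.mem_ball, dist_comm]
          exact hz.2.1
        calc ∑ y ∈ F.filter (fun y => dist x y < R ∧ μ y < l * μ x), μ y
            ≤ ∑ _y ∈ F.filter (fun y => dist x y < R ∧ μ y < l * μ x), l * μ x :=
              Finset.sum_le_sum fun y hy => (Finset.mem_filter.mp hy).2.2.le
          _ = (F.filter (fun y => dist x y < R ∧ μ y < l * μ x)).card * (l * μ x) := by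
              rw [Finset.sum_const, nsmul_eq_mul]
          _ ≤ N * (l * μ x) := by
              gcongr
      calc ∑ y ∈ F.filter (fun y => y ∈ E ∧ y ∉ E₀), μ y
          ≤ ∑ y ∈ E₀.biUnion (fun x => F.filter (fun y => dist x y < R ∧ μ y < l * μ x)), μ y :=
            Finset.sum_le_sum_of_subset_of_nonneg h1 (fun x _ _ => hμ x)
        _ ≤ ∑ x ∈ E₀, ∑ y ∈ F.filter (fun y => dist x y < R ∧ μ y < l * μ x), μ y :=
            sum_biUnion_le' _ _ _ hμ
        _ ≤ ∑ x ∈ E₀, N * (l * μ x) := Finset.sum_le_sum h2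
        _ = N * l * m := by rw [hm, Finset.mul_sum]; exact Finset.sum_congr rfl fun x _ => by ring
    -- the old points
    have hold : ∑ x ∈ E₀.filter (fun x => ∃ y ∉ E, dist x y < R), μ x ≤ ε / 2 * m := by
      have h1 : ∀ x ∈ E₀.filter (fun x => ∃ y ∉ E, dist x y < R),
          l / (2 * N) * μ x ≤ ∑ y ∈ F \ E₀, aa R N F μ x y := by
        intro x hx
        obtain ⟨hx0, y, hyE, hxy⟩ := Finset.mem_filter.mp hx
        have hμx := (hF x).mp (hE₀ hx0)
        have hy1 : y ∉ E₀ := fun h => hyE ((hE y).mpr (Or.inl h))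
        have hy2 : l * μ x ≤ μ y := by
          by_contra h
          push Not at h
          exact hyE ((hE y).mpr (Or.inr ⟨x, hx0, hxy, h⟩))
        have hyF : y ∈ F := (hF y).mpr (lt_of_lt_of_le (by positivity) hy2)
        have hne' : x ≠ y := fun h => hy1 (h ▸ hx0)
        have h3 : l / (2 * N) * μ x ≤ aa R N F μ x y := by
          simp only [aa, if_neg hne', cond, hxy, if_true]
          rw [div_mul_eq_mul_div]
          have : l * μ x ≤ min (μ x) (μ y) := le_min (by nlinarith) hy2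
          gcongr
        refine h3.trans (Finset.single_le_sum (f := fun y => aa R N F μ x y) ?_
          (Finset.mem_sdiff.mpr ⟨hyF, hy1⟩))
        intro z hz
        exact (aa_chain hN hball hμ F (fun x hx => (hF x).mp hx)).nonneg x (hE₀ hx0) z
          (Finset.mem_sdiff.mp hz).1
      have h2 : l / (2 * N) * ∑ x ∈ E₀.filter (fun x => ∃ y ∉ E, dist x y < R), μ x ≤
          ε * l / (4 * N) * m := by
        refine le_trans ?_ hcut
        rw [Finset.mul_sum]
        refine (Finset.sum_le_sum h1).trans ?_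
        refine Finset.sum_le_sum_of_subset_of_nonneg (Finset.filter_subset _ _) ?_
        intro x hx _
        refine Finset.sum_nonneg fun z hz => ?_
        exact (aa_chain hN hball hμ F (fun x hx => (hF x).mp hx)).nonneg x (hE₀ hx) z
          (Finset.mem_sdiff.mp hz).1
      have h3 : ε * l / (4 * N) * m = l / (2 * N) * (ε / 2 * m) := by field_simp; ring
      rw [h3] at h2
      exact le_of_mul_le_mul_left h2 (by positivity)
    calc ∑ x ∈ F.filter (fun x => x ∈ E ∧ ∃ y ∉ E, dist x y < R), μ x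
        ≤ ∑ x ∈ (E₀.filter (fun x => ∃ y ∉ E, dist x y < R)) ∪
            (F.filter (fun y => y ∈ E ∧ y ∉ E₀)), μ x :=
          Finset.sum_le_sum_of_subset_of_nonneg hsplit (fun x _ _ => hμ x)
      _ ≤ ∑ x ∈ E₀.filter (fun x => ∃ y ∉ E, dist x y < R), μ x +
            ∑ y ∈ F.filter (fun y => y ∈ E ∧ y ∉ E₀), μ y := by
          rw [← Finset.sum_union_inter]
          have : 0 ≤ ∑ x ∈ (E₀.filter (fun x => ∃ y ∉ E, dist x y < R)) ∩
            (F.filter (fun y => y ∈ E ∧ y ∉ E₀)), μ x := Finset.sum_nonneg fun x _ => hμ x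
          linarith
      _ ≤ ε / 2 * m + N * l * m := add_le_add hold hadd
      _ ≤ ε * m := by nlinarith
      _ ≤ ε * ∑ x ∈ F.filter (· ∈ E), μ x := by gcongr

end Pool.Agent.MPe081a1
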