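import Mathlib

/-!
Finite quotients of the free group of rank two that are injective on large balls.
-/

set_option autoImplicit false

namespace Pool.Agent.MPe081a1

/-- the free group of rank two -/
abbrev F2 : Type := FreeGroup (Fin 2)

/-- the ball of radius `n` in the free group of rank two -/
def Ball (n : ℕ) : Set F2 := {w | FreeGroup.norm w ≤ n}

lemma finite_ball (n : ℕ) : (Ball n).Finite := by
  have h : {l : List (Fin 2 × Bool) | l.length ≤ n}.Finite := List.finite_length_le _ n
  refine Set.Finite.of_finite_image (f := FreeGroup.toWord) (h.subset ?_)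
    (FreeGroup.toWord_injective.injOn)
  rintro _ ⟨w, hw, rfl⟩
  exact hw

instance (n : ℕ) : Finite (Ball n) := (finite_ball n).to_subtype

lemma one_mem_ball (n : ℕ) : (1 : F2) ∈ Ball n := by simp [Ball]

/-- a permutation of the ball extending left multiplication by the `i`-th generator -/
lemma exists_perm (n : ℕ) (i : Fin 2) : ∃ σ : Equiv.Perm (Ball n),
    ∀ w : Ball n, ∀ h : FreeGroup.of i * (w : F2) ∈ Ball n, σ w = ⟨FreeGroup.of i * w, h⟩ := by
  classical
  let f : {w : Ball n // FreeGroup.of i * (w : F2) ∈ Ball n} → Ball n := fun w => w.1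
  let g : {w : Ball n // FreeGroup.of i * (w : F2) ∈ Ball n} → Ball n :=
    fun w => ⟨FreeGroup.of i * (w.1 : F2), w.2⟩
  have hf : Function.Injective f := Subtype.val_injective
  have hg : Function.Injective g := by
    intro a b hab
    have : FreeGroup.of i * (a.1 : F2) = FreeGroup.of i * (b.1 : F2) := congrArg Subtype.val hab
    exact Subtype.ext (Subtype.ext (mul_left_cancel this))
  obtain ⟨σ, hσ⟩ := Equiv.Perm.exists_extending_pair f g hf hg
  exact ⟨σ, fun w h => hσ ⟨w, h⟩⟩

/-- the chosen permutations -/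
noncomputable def sig (n : ℕ) (i : Fin 2) : Equiv.Perm (Ball n) := (exists_perm n i).choose

lemma sig_spec (n : ℕ) (i : Fin 2) (w : Ball n) (h : FreeGroup.of i * (w : F2) ∈ Ball n) :
    sig n i w = ⟨FreeGroup.of i * w, h⟩ := (exists_perm n i).choose_spec w h

/-- the homomorphism from the free group to the permutations of the ball -/
noncomputable def phi (n : ℕ) : F2 →* Equiv.Perm (Ball n) := FreeGroup.lift (sig n)

lemma phi_letter (n : ℕ) (t : Fin 2 × Bool) (w : Ball n)
    (h : FreeGroup.mk [t] * (w : F2) ∈ Ball n) :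
    phi n (FreeGroup.mk [t]) w = ⟨FreeGroup.mk [t] * w, h⟩ := by
  obtain ⟨i, b⟩ := t
  cases b with
  | true =>
    have e : (FreeGroup.mk [(i, true)] : F2) = FreeGroup.of i := rfl
    simp only [e] at h ⊢
    have : phi n (FreeGroup.of i) = sig n i := by simp [phi]
    rw [this]
    exact sig_spec n i w h
  | false =>
    have e : (FreeGroup.mk [(i, false)] : F2) = (FreeGroup.of i)⁻¹ := rfl
    simp only [e] at h ⊢
    have : phi n (FreeGroup.of i)⁻¹ = (sig n i)⁻¹ := by simp [phi]
    rw [this, Equiv.Perm.inv_eq_iff_eq]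
    have h2 : FreeGroup.of i * (((⟨(FreeGroup.of i)⁻¹ * (w : F2), h⟩ : Ball n)) : F2) ∈ Ball n := by
      simp
    rw [sig_spec n i _ h2]
    ext
    simp

lemma phi_apply_one (n : ℕ) (L : List (Fin 2 × Bool)) (hL : L.length ≤ n) :
    ((phi n (FreeGroup.mk L) ⟨1, one_mem_ball n⟩ : Ball n) : F2) = FreeGroup.mk L := by
  induction L with
  | nil =>
    have : (FreeGroup.mk ([] : List (Fin 2 × Bool)) : F2) = 1 := rfl
    rw [this]
    simp
  | cons t L ih =>
    have hL' : L.length ≤ n := by
      simp at hL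
      omega
    have ih' := ih hL'
    have e : (FreeGroup.mk (t :: L) : F2) = FreeGroup.mk [t] * FreeGroup.mk L := by
      rw [FreeGroup.mul_mk]; rfl
    have hmem : FreeGroup.mk [t] * (FreeGroup.mk L : F2) ∈ Ball n := by
      rw [← e]
      exact le_trans FreeGroup.norm_mk_le hL
    rw [e, map_mul, Equiv.Perm.mul_apply]
    have h1 : phi n (FreeGroup.mk L) ⟨1, one_mem_ball n⟩ = (⟨FreeGroup.mk L,
        le_trans FreeGroup.norm_mk_le hL'⟩ : Ball n) := Subtype.ext ih'
    rw [h1, phi_letter n t _ hmem]

lemma phi_inj (n : ℕ) (w : F2) (hw : FreeGroup.norm w ≤ n) (h : phi n w = 1) : w = 1 := by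
  have h1 := phi_apply_one n w.toWord hw
  rw [FreeGroup.mk_toWord, h] at h1
  simpa using h1.symm

end Pool.Agent.MPe081a1
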