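import Pool.Agent.MP_e081a1_an.Minimax

/-!
Probability kernels from weights, and a compactness argument.
-/

set_option autoImplicit false

namespace Pool.Agent.MPe081a1

variable {X : Type*} [MetricSpace X]

lemma abs_ind_sub_le {R : ℝ} (A : Set X) {x y : X} (h : dist x y < R) :
    |ind A x - ind A y| ≤ ind (bd R A) x + ind (bd R A) y := by
  have h1 := ind_nonneg (bd R A) x
  have h2 := ind_nonneg (bd R A) y
  by_cases hx : x ∈ A <;> by_cases hy : y ∈ A
  · have e1 : ind A x = 1 := by simp [ind, hx]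
    have e2 : ind A y = 1 := by simp [ind, hy]
    rw [e1, e2, sub_self, abs_zero]
    exact add_nonneg h1 h2
  · have h3 : x ∈ bd R A := ⟨hx, y, hy, h⟩
    have : ind (bd R A) x = 1 := by simp [ind, h3]
    rw [this]
    simp only [ind, hx, hy, if_true, if_false]
    norm_num
    exact h2
  · have h3 : y ∈ bd R A := ⟨hy, x, hx, by rwa [dist_comm]⟩
    have : ind (bd R A) y = 1 := by simp [ind, h3]
    rw [this]
    simp only [ind, hx, hy, if_true, if_false]
    norm_num
    exact h1
  · have e1 : ind A x = 0 := by simp [ind, hx]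
    have e2 : ind A y = 0 := by simp [ind, hy]
    rw [e1, e2, sub_self, abs_zero]
    exact add_nonneg h1 h2

open Classical in
/-- the kernel at the level of a finite set -/
theorem exists_kernel_finite {R ε S : ℝ} (hε : 0 < ε) (hε1 : ε ≤ 1 / 2)
    (hU : Ula X R (ε / 2) S) (F : Finset X) :
    ∃ ζ : X → X → ℝ, (∀ x z, 0 ≤ ζ x z) ∧ (∀ x z, ζ x z ≤ 1) ∧
      (∀ x ∈ F, ∀ z, ζ x z ≠ 0 → dist x z ≤ S) ∧
      (∀ x ∈ F, ∀ B : Finset X, (∀ z, dist x z ≤ S → z ∈ B) → ∑ z ∈ B, ζ x z = 1) ∧
      (∀ x ∈ F, ∀ y ∈ F, dist x y < R → ∀ B : Finset X, ∑ z ∈ B, |ζ x z - ζ y z| ≤ 8 * ε) := by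
  obtain ⟨ι, hι, w, A, hw0, hA, hwA⟩ := exists_weights hε hU F
  let m : X → ℝ := fun x => ∑ i, w i * ind (A i) x
  have hm0 : ∀ x, 0 ≤ m x := fun x =>
    Finset.sum_nonneg fun i _ => mul_nonneg (hw0 i) (ind_nonneg _ _)
  have hbd0 : ∀ x, 0 ≤ ∑ i, w i * ind (bd R (A i)) x := fun x =>
    Finset.sum_nonneg fun i _ => mul_nonneg (hw0 i) (ind_nonneg _ _)
  have hmpos : ∀ x ∈ F, 0 < m x := by
    intro x hx
    have h1 := hwA x hx
    have h2 := hbd0 x
    by_contra h
    have h3 : m x = 0 := le_antisymm (not_lt.mp h) (hm0 x)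
    simp only [m] at h3
    rw [h3, mul_zero] at h1
    linarith
  -- base points
  have hpt : ∃ c : ι → X → X, ∀ i x, x ∈ A i → (c i x ∈ A i ∧ ∀ y ∈ A i, c i y = c i x) := by
    refine ⟨fun i x => if h : (A i).Nonempty then h.choose else x, fun i x hx => ?_⟩
    have h : (A i).Nonempty := ⟨x, hx⟩
    simp only [h, dif_pos]
    exact ⟨h.choose_spec, fun _ _ => trivial⟩
  obtain ⟨c, hc⟩ := hpt
  -- unnormalised kernel
  let ξ : X → X → ℝ := fun x z => ∑ i, w i * (ind (A i) x * if c i x = z then 1 else 0)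
  have hξ0 : ∀ x z, 0 ≤ ξ x z := fun x z => Finset.sum_nonneg fun i _ =>
    mul_nonneg (hw0 i) (mul_nonneg (ind_nonneg _ _) (by split_ifs <;> norm_num))
  have hξm : ∀ x z, ξ x z ≤ m x := fun x z => Finset.sum_le_sum fun i _ => by
    refine mul_le_mul_of_nonneg_left ?_ (hw0 i)
    calc ind (A i) x * (if c i x = z then 1 else 0) ≤ ind (A i) x * 1 := by
          refine mul_le_mul_of_nonneg_left ?_ (ind_nonneg _ _)
          split_ifs <;> norm_num
      _ = ind (A i) x := mul_one _
  have hξsupp : ∀ x z, ξ x z ≠ 0 → dist x z ≤ S := by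
    intro x z h
    obtain ⟨i, _, hi⟩ := Finset.exists_ne_zero_of_sum_ne_zero h
    have h1 : ind (A i) x ≠ 0 := by
      intro h0; apply hi; rw [h0]; ring
    have h2 : x ∈ A i := by
      by_contra hx; exact h1 (by simp [ind, hx])
    have h3 : c i x = z := by
      by_contra hz; apply hi; rw [if_neg hz]; ring
    rw [← h3]
    exact hA i x h2 _ (hc i x h2).1
  have hξsum : ∀ x, ∀ B : Finset X, (∀ z, dist x z ≤ S → z ∈ B) → ∑ z ∈ B, ξ x z = m x := by
    intro x B hB
    simp only [ξ, m]
    rw [Finset.sum_comm]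
    refine Finset.sum_congr rfl fun i _ => ?_
    rw [← Finset.mul_sum, ← Finset.mul_sum]
    by_cases hx : x ∈ A i
    · have h1 : c i x ∈ B := hB _ (hA i x hx _ (hc i x hx).1)
      rw [Finset.sum_ite_eq, if_pos h1, mul_one]
    · simp [ind, hx]
  have hξdiff : ∀ x ∈ F, ∀ y ∈ F, dist x y < R → ∀ B : Finset X,
      ∑ z ∈ B, |ξ x z - ξ y z| ≤ ε * (m x + m y) := by
    intro x hx y hy hxy B
    have h1 : ∀ z, |ξ x z - ξ y z| ≤
        ∑ i, w i * (|ind (A i) x - ind (A i) y| *
          if c i (if x ∈ A i then x else y) = z then 1 else 0) := by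
      intro z
      simp only [ξ]
      rw [← Finset.sum_sub_distrib]
      refine (Finset.abs_sum_le_sum_abs _ _).trans (Finset.sum_le_sum fun i _ => ?_)
      rw [← mul_sub, abs_mul, abs_of_nonneg (hw0 i)]
      refine mul_le_mul_of_nonneg_left ?_ (hw0 i)
      by_cases hxA : x ∈ A i
      · rw [if_pos hxA]
        by_cases hyA : y ∈ A i
        · have h2 : c i y = c i x := (hc i x hxA).2 y hyA
          simp [ind, hxA, hyA, h2]
        · simp only [ind, hxA, hyA, if_true, if_false, one_mul, zero_mul, sub_zero]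
          split_ifs <;> simp
      · rw [if_neg hxA]
        by_cases hyA : y ∈ A i
        · simp only [ind, hxA, hyA, if_true, if_false, one_mul, zero_mul, zero_sub]
          split_ifs <;> simp
        · simp [ind, hxA, hyA]
    calc ∑ z ∈ B, |ξ x z - ξ y z| ≤ ∑ z ∈ B, ∑ i, w i * (|ind (A i) x - ind (A i) y| *
          if c i (if x ∈ A i then x else y) = z then 1 else 0) :=
          Finset.sum_le_sum fun z _ => h1 z
      _ = ∑ i, w i * (|ind (A i) x - ind (A i) y| *
          ∑ z ∈ B, if c i (if x ∈ A i then x else y) = z then 1 else 0) := by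
          rw [Finset.sum_comm]
          refine Finset.sum_congr rfl fun i _ => ?_
          rw [Finset.mul_sum, Finset.mul_sum]
      _ ≤ ∑ i, w i * (ind (bd R (A i)) x + ind (bd R (A i)) y) := by
          refine Finset.sum_le_sum fun i _ => mul_le_mul_of_nonneg_left ?_ (hw0 i)
          have h3 : ∑ z ∈ B, (if c i (if x ∈ A i then x else y) = z then (1 : ℝ) else 0) ≤ 1 := by
            rw [Finset.sum_ite_eq]
            split_ifs <;> norm_num
          calc |ind (A i) x - ind (A i) y| * _ ≤ |ind (A i) x - ind (A i) y| * 1 :=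
                mul_le_mul_of_nonneg_left h3 (abs_nonneg _)
            _ = |ind (A i) x - ind (A i) y| := mul_one _
            _ ≤ _ := abs_ind_sub_le (A i) hxy
      _ = ∑ i, w i * ind (bd R (A i)) x + ∑ i, w i * ind (bd R (A i)) y := by
          rw [← Finset.sum_add_distrib]
          exact Finset.sum_congr rfl fun i _ => mul_add _ _ _
      _ ≤ ε * m x + ε * m y := add_le_add (hwA x hx).le (hwA y hy).le
      _ = ε * (m x + m y) := by ring
  -- normalise
  refine ⟨fun x z => ξ x z / m x, ?_, ?_, ?_, ?_, ?_⟩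
  · intro x z
    exact div_nonneg (hξ0 x z) (hm0 x)
  · intro x z
    exact div_le_one_of_le₀ (hξm x z) (hm0 x)
  · intro x _ z h
    exact hξsupp x z fun h0 => h (by show ξ x z / m x = 0; rw [h0, zero_div])
  · intro x hx B hB
    rw [← Finset.sum_div, hξsum x B hB, div_self (hmpos x hx).ne']
  · intro x hx y hy hxy B
    -- a finite set containing everything
    have hmx := hmpos x hx
    have hmy := hmpos y hy
    -- compare the masses
    have hmm : |m x - m y| ≤ ε * (m x + m y) := by
      have h1 : |m x - m y| ≤ ∑ i, w i * (ind (bd R (A i)) x + ind (bd R (A i)) y) := by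
        simp only [m]
        rw [← Finset.sum_sub_distrib]
        refine (Finset.abs_sum_le_sum_abs _ _).trans (Finset.sum_le_sum fun i _ => ?_)
        rw [← mul_sub, abs_mul, abs_of_nonneg (hw0 i)]
        exact mul_le_mul_of_nonneg_left (abs_ind_sub_le (A i) hxy) (hw0 i)
      refine h1.trans ?_
      calc ∑ i, w i * (ind (bd R (A i)) x + ind (bd R (A i)) y)
          = ∑ i, w i * ind (bd R (A i)) x + ∑ i, w i * ind (bd R (A i)) y := by
            rw [← Finset.sum_add_distrib]
            exact Finset.sum_congr rfl fun i _ => mul_add _ _ _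
        _ ≤ ε * m x + ε * m y := add_le_add (hwA x hx).le (hwA y hy).le
        _ = ε * (m x + m y) := by ring
    have hmy3 : m y ≤ 3 * m x := by
      have h2 := (abs_le.mp hmm).1
      have h3 : ε * (m x + m y) ≤ 1 / 2 * (m x + m y) := by gcongr
      linarith
    have hξy : ∑ z ∈ B, ξ y z ≤ m y := by
      simp only [ξ, m]
      rw [Finset.sum_comm]
      refine Finset.sum_le_sum fun i _ => ?_
      rw [← Finset.mul_sum, ← Finset.mul_sum, Finset.sum_ite_eq]
      refine mul_le_mul_of_nonneg_left ?_ (hw0 i)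
      have := ind_nonneg (A i) y
      split_ifs <;> simp [this]
    have h4 : ∀ z, |ξ x z / m x - ξ y z / m y| ≤
        |ξ x z - ξ y z| / m x + ξ y z * (|m x - m y| / (m x * m y)) := by
      intro z
      have e : ξ x z / m x - ξ y z / m y =
          (ξ x z - ξ y z) / m x + ξ y z * ((m y - m x) / (m x * m y)) := by
        field_simp
        ring
      rw [e]
      refine (abs_add_le _ _).trans (add_le_add ?_ ?_)
      · rw [abs_div, abs_of_pos hmx]
      · rw [abs_mul, abs_of_nonneg (hξ0 y z), abs_div, abs_of_pos (mul_pos hmx hmy),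
          abs_sub_comm]
    calc ∑ z ∈ B, |ξ x z / m x - ξ y z / m y|
        ≤ ∑ z ∈ B, (|ξ x z - ξ y z| / m x + ξ y z * (|m x - m y| / (m x * m y))) :=
          Finset.sum_le_sum fun z _ => h4 z
      _ = (∑ z ∈ B, |ξ x z - ξ y z|) / m x +
            (∑ z ∈ B, ξ y z) * (|m x - m y| / (m x * m y)) := by
          rw [Finset.sum_add_distrib, Finset.sum_div]
          congr 1
          exact (Finset.sum_mul _ _ _).symm
      _ ≤ (ε * (m x + m y)) / m x + m y * (ε * (m x + m y) / (m x * m y)) := by
          have h5 := hξdiff x hx y hy hxy B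
          gcongr
      _ = 2 * (ε * (m x + m y) / m x) := by
          field_simp
          ring
      _ ≤ 2 * (ε * (4 * m x) / m x) := by
          have h6 : m x + m y ≤ 4 * m x := by linarith
          gcongr
      _ = 8 * ε := by
          field_simp
          ring

/-- the kernel on the whole space, by compactness -/
theorem exists_kernel {R ε S : ℝ} (hε : 0 < ε) (hε1 : ε ≤ 1 / 2)
    (hU : Ula X R (ε / 2) S) (hfin : ∀ x : X, (Metric.closedBall x S).Finite) :
    ∃ ζ : X → X → ℝ, (∀ x z, 0 ≤ ζ x z) ∧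
      (∀ x z, S < dist x z → ζ x z = 0) ∧
      (∀ x, ∑ z ∈ (hfin x).toFinset, ζ x z = 1) ∧
      (∀ x y, dist x y < R → ∀ B : Finset X, ∑ z ∈ B, |ζ x z - ζ y z| ≤ 8 * ε) := by
  choose Z hZ0 hZ1 hZS hZsum hZd using fun F : Finset X => exists_kernel_finite hε hε1 hU F
  let K : Set (X → X → ℝ) := Set.pi Set.univ fun _ => Set.pi Set.univ fun _ => Set.Icc 0 1
  have hK : IsCompact K := isCompact_univ_pi fun _ => isCompact_univ_pi fun _ => isCompact_Icc
  have hle : Filter.map Z Filter.atTop ≤ Filter.principal K := by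
    rw [Filter.le_principal_iff, Filter.mem_map]
    refine Filter.Eventually.of_forall fun F => ?_
    intro x _ z _
    exact ⟨hZ0 F x z, hZ1 F x z⟩
  obtain ⟨ζ, hζK, hζ⟩ := hK hle
  have hclosed : ∀ C : Set (X → X → ℝ), IsClosed C → (∀ᶠ F in Filter.atTop, Z F ∈ C) → ζ ∈ C := by
    intro C hC hev
    refine isClosed_iff_clusterPt.mp hC ζ (hζ.mono ?_)
    rw [Filter.le_principal_iff, Filter.mem_map]
    exact hev
  have hcont : ∀ x z, Continuous fun ζ : X → X → ℝ => ζ x z := fun x z =>
    (continuous_apply z).comp (continuous_apply x)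
  have hevx : ∀ x : X, ∀ᶠ F : Finset X in Filter.atTop, x ∈ F := fun x => by
    filter_upwards [Filter.eventually_ge_atTop ({x} : Finset X)] with F hF
    exact hF (Finset.mem_singleton_self x)
  refine ⟨ζ, fun x z => (hζK x trivial z trivial).1, ?_, ?_, ?_⟩
  · intro x z hxz
    refine hclosed {ζ | ζ x z = 0} (isClosed_eq (hcont x z) continuous_const) ?_
    filter_upwards [hevx x] with F hF
    show Z F x z = 0
    by_contra h
    have := hZS F x hF z h
    linarith
  · intro x
    refine hclosed {ζ | ∑ z ∈ (hfin x).toFinset, ζ x z = 1}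
      (isClosed_eq (continuous_finsetSum _ fun z _ => hcont x z) continuous_const) ?_
    filter_upwards [hevx x] with F hF
    exact hZsum F x hF _ fun z hz => by
      rw [Set.Finite.mem_toFinset, Metric.mem_closedBall, dist_comm]; exact hz
  · intro x y hxy B
    refine hclosed {ζ | ∑ z ∈ B, |ζ x z - ζ y z| ≤ 8 * ε}
      (isClosed_le (continuous_finsetSum _ fun z _ => ((hcont x z).sub (hcont y z)).abs)
        continuous_const) ?_
    filter_upwards [hevx x, hevx y] with F hFx hFy
    exact hZd F x hFx y hFy hxy B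

end Pool.Agent.MPe081a1
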