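import Pool.Agent.MP_e081a1_an.Coarea

/-!
The coarea argument: a function with small total variation has a level set with small cut.
-/

set_option autoImplicit false

namespace Pool.Agent.MPe081a1

open Finset MeasureTheory

/-- the indicator of a level -/
noncomputable def lev (g t : ℝ) : ℝ := if t < g then 1 else 0

lemma lev_nonneg (g t : ℝ) : 0 ≤ lev g t := by unfold lev; split_ifs <;> norm_num

lemma lev_le_one (g t : ℝ) : lev g t ≤ 1 := by unfold lev; split_ifs <;> norm_num

lemma measurable_lev (g : ℝ) : Measurable (lev g) :=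
  Measurable.ite measurableSet_Iio measurable_const measurable_const

lemma integrableOn_of_bdd {f : ℝ → ℝ} (hf : Measurable f) (C : ℝ) (hb : ∀ t, |f t| ≤ C) (M : ℝ) :
    IntegrableOn f (Set.Ico 0 M) := by
  have : IsFiniteMeasure (volume.restrict (Set.Ico (0 : ℝ) M)) :=
    ⟨by rw [Measure.restrict_apply_univ, Real.volume_Ico]; exact ENNReal.ofReal_lt_top⟩
  exact Integrable.of_bound hf.aestronglyMeasurable C (Filter.Eventually.of_forall hb)

lemma integrableOn_lev (g M : ℝ) : IntegrableOn (lev g) (Set.Ico 0 M) :=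
  integrableOn_of_bdd (measurable_lev g) 1
    (fun t => by rw [abs_of_nonneg (lev_nonneg g t)]; exact lev_le_one g t) M

lemma integral_lev {g M : ℝ} (h0 : 0 ≤ g) (hM : g ≤ M) : ∫ t in Set.Ico 0 M, lev g t = g := by
  have h1 : ∀ t, lev g t = (Set.Iio g).indicator (fun _ => (1 : ℝ)) t := by
    intro t; unfold lev; by_cases h : t < g <;> simp [h]
  simp_rw [h1]
  rw [setIntegral_indicator measurableSet_Iio]
  have : Set.Ico 0 M ∩ Set.Iio g = Set.Ico 0 g := by
    ext t; simp only [Set.mem_inter_iff, Set.mem_Ico, Set.mem_Iio]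
    constructor
    · rintro ⟨⟨h1, _⟩, h3⟩; exact ⟨h1, h3⟩
    · rintro ⟨h1, h3⟩; exact ⟨⟨h1, lt_of_lt_of_le h3 hM⟩, h3⟩
  rw [this]
  simp [h0]

lemma measurable_cut (g g' : ℝ) : Measurable fun t => lev g t * (1 - lev g' t) :=
  (measurable_lev g).mul (measurable_const.sub (measurable_lev g'))

lemma cut_bdd (g g' t : ℝ) : |lev g t * (1 - lev g' t)| ≤ 1 := by
  have h1 := lev_nonneg g t
  have h2 := lev_le_one g t
  have h3 := lev_nonneg g' t
  have h4 := lev_le_one g' t
  rw [abs_of_nonneg (mul_nonneg h1 (by linarith))]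
  nlinarith

lemma integral_cut {g g' M : ℝ} (h0 : 0 ≤ g) (hM : g ≤ M) (h0' : 0 ≤ g') (hM' : g' ≤ M) :
    ∫ t in Set.Ico 0 M, lev g t * (1 - lev g' t) ≤ |g - g'| := by
  rcases le_total g g' with h | h
  · have : ∀ t, lev g t * (1 - lev g' t) = 0 := by
      intro t
      unfold lev
      by_cases h1 : t < g
      · have h2 : t < g' := lt_of_lt_of_le h1 h
        simp [h2]
      · simp [h1]
    simp_rw [this]
    simp
  · have : ∀ t, lev g t * (1 - lev g' t) = lev g t - lev g' t := by
      intro t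
      unfold lev
      by_cases h1 : t < g'
      · have h2 : t < g := lt_of_lt_of_le h1 h
        simp [h1, h2]
      · simp [h1]
    simp_rw [this]
    rw [integral_sub (integrableOn_lev g M) (integrableOn_lev g' M), integral_lev h0 hM,
      integral_lev h0' hM']
    exact le_abs_self _

variable {X : Type*} [DecidableEq X]

/-- existence of a level set with small cut -/
lemma exists_level {F : Finset X} {μ : X → ℝ} {a : X → X → ℝ}
    (ha : ∀ x ∈ F, ∀ y ∈ F, 0 ≤ a x y) (g : X → ℝ) (hg : ∀ x, 0 ≤ g x) {κ : ℝ} (hκ : 0 < κ)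
    (htv : ∑ x ∈ F, ∑ y ∈ F, a x y * |g x - g y| ≤ κ * ∑ x ∈ F, μ x * g x)
    (hpos : 0 < ∑ x ∈ F, μ x * g x) :
    ∃ E : Finset X, E ⊆ F ∧ E.Nonempty ∧ (∀ x ∈ E, 0 < g x) ∧
      ∑ x ∈ E, ∑ y ∈ F \ E, a x y ≤ 2 * κ * ∑ x ∈ E, μ x := by
  classical
  set M : ℝ := ∑ x ∈ F, g x with hM
  have hgM : ∀ x ∈ F, g x ≤ M := fun x hx =>
    Finset.single_le_sum (f := g) (fun y _ => hg y) hx
  let E : ℝ → Finset X := fun t => F.filter fun x => t < g x
  let cut : ℝ → ℝ := fun t => ∑ x ∈ F, ∑ y ∈ F, a x y * (lev (g x) t * (1 - lev (g y) t))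
  let mass : ℝ → ℝ := fun t => ∑ x ∈ F, μ x * lev (g x) t
  have hcut : ∀ t, ∑ x ∈ E t, ∑ y ∈ F \ E t, a x y = cut t := by
    intro t
    have hFE : F \ E t = F.filter fun y => ¬ t < g y := by
      ext y; simp only [E, mem_sdiff, mem_filter, not_and]
      constructor
      · rintro ⟨h1, h2⟩; exact ⟨h1, h2 h1⟩
      · rintro ⟨h1, h2⟩; exact ⟨h1, fun _ => h2⟩
    rw [hFE]
    simp only [E, cut, Finset.sum_filter]
    refine Finset.sum_congr rfl fun x _ => ?_
    by_cases hx : t < g x
    · simp only [hx, if_true]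
      refine Finset.sum_congr rfl fun y _ => ?_
      by_cases hy : t < g y <;> simp [lev, hx, hy]
    · simp only [hx, if_false]
      symm
      refine Finset.sum_eq_zero fun y _ => ?_
      simp [lev, hx]
  have hmass : ∀ t, ∑ x ∈ E t, μ x = mass t := by
    intro t
    simp only [E, mass, Finset.sum_filter]
    refine Finset.sum_congr rfl fun x _ => ?_
    by_cases hx : t < g x <;> simp [lev, hx]
  -- integrals
  have hcm : ∀ x y, Integrable (fun t => a x y * (lev (g x) t * (1 - lev (g y) t)))
      (volume.restrict (Set.Ico 0 M)) := fun x y =>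
    (integrableOn_of_bdd (measurable_cut (g x) (g y)) 1 (cut_bdd _ _) M).const_mul _
  have hmm : ∀ x, Integrable (fun t => μ x * lev (g x) t) (volume.restrict (Set.Ico 0 M)) :=
    fun x => (integrableOn_lev (g x) M).const_mul _
  have hIcut : ∫ t in Set.Ico 0 M, cut t ≤ κ * ∑ x ∈ F, μ x * g x := by
    refine le_trans ?_ htv
    simp only [cut]
    rw [integral_finsetSum _ (fun x _ => integrable_finsetSum _ fun y _ => hcm x y)]
    refine Finset.sum_le_sum fun x hx => ?_
    rw [integral_finsetSum _ (fun y _ => hcm x y)]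
    refine Finset.sum_le_sum fun y hy => ?_
    rw [integral_const_mul]
    exact mul_le_mul_of_nonneg_left (integral_cut (hg x) (hgM x hx) (hg y) (hgM y hy))
      (ha x hx y hy)
  have hImass : ∫ t in Set.Ico 0 M, mass t = ∑ x ∈ F, μ x * g x := by
    simp only [mass]
    rw [integral_finsetSum _ (fun x _ => hmm x)]
    refine Finset.sum_congr rfl fun x hx => ?_
    rw [integral_const_mul, integral_lev (hg x) (hgM x hx)]
  by_contra hcon
  push Not at hcon
  -- for every `t` the cut dominates the mass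
  have hdom : ∀ t ∈ Set.Ico (0 : ℝ) M, 2 * κ * mass t ≤ cut t := by
    intro t ht
    rw [← hcut, ← hmass]
    rcases (E t).eq_empty_or_nonempty with h | h
    · rw [h]; simp
    · exact (hcon (E t) (Finset.filter_subset _ _) h (fun x hx => by
        have := (Finset.mem_filter.mp hx).2
        linarith [ht.1])).le
  have hint1 : Integrable (fun t => 2 * κ * mass t) (volume.restrict (Set.Ico 0 M)) :=
    (integrable_finsetSum _ fun x _ => hmm x).const_mul _
  have hint2 : Integrable cut (volume.restrict (Set.Ico 0 M)) :=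
    integrable_finsetSum _ fun x _ => integrable_finsetSum _ fun y _ => hcm x y
  have h1 : ∫ t in Set.Ico 0 M, 2 * κ * mass t ≤ ∫ t in Set.Ico 0 M, cut t :=
    setIntegral_mono_on hint1 hint2 measurableSet_Ico hdom
  rw [integral_const_mul, hImass] at h1
  have : 0 < κ * ∑ x ∈ F, μ x * g x := by positivity
  linarith

end Pool.Agent.MPe081a1
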