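import Mathlib

/-!
From uniform local amenability with measures to property A, by a minimax argument and compactness.
-/

set_option autoImplicit false

namespace Pool.Agent.MPe081a1

open Classical in
/-- indicator of a set as a real number -/
noncomputable def ind {X : Type*} (A : Set X) (x : X) : ℝ := if x ∈ A then 1 else 0

lemma ind_nonneg {X : Type*} (A : Set X) (x : X) : 0 ≤ ind A x := by
  unfold ind; split_ifs <;> norm_num

/-- inner boundary at scale `R` -/
def bd {X : Type*} [MetricSpace X] (R : ℝ) (A : Set X) : Set X := {x | x ∈ A ∧ ∃ y ∉ A, dist x y < R}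

/-- uniform local amenability at fixed `R`, `ε`, `S`, for all measures on finite sets -/
def Ula (X : Type*) [MetricSpace X] (R ε S : ℝ) : Prop :=
  ∀ (μ : X → ℝ) (_ : ∀ x, 0 ≤ μ x) (F : Finset X) (_ : ∀ x, x ∈ F ↔ 0 < μ x) (_ : F.Nonempty),
    ∃ A : Set X, (∀ a ∈ A, ∀ b ∈ A, dist a b ≤ S) ∧ 0 < ∑ x ∈ F, μ x * ind A x ∧
      ∑ x ∈ F, μ x * ind (bd R A) x ≤ ε * ∑ x ∈ F, μ x * ind A x

section

variable {X : Type*} [MetricSpace X]

/-- minimax -/
theorem exists_weights {R ε S : ℝ} (hε : 0 < ε) (hU : Ula X R (ε / 2) S) (F : Finset X) :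
    ∃ (ι : Type) (_ : Fintype ι) (w : ι → ℝ) (A : ι → Set X), (∀ i, 0 ≤ w i) ∧
      (∀ i, ∀ a ∈ A i, ∀ b ∈ A i, dist a b ≤ S) ∧
      ∀ x ∈ F, ∑ i, w i * ind (bd R (A i)) x < ε * ∑ i, w i * ind (A i) x := by
  classical
  let V : Set (F → ℝ) := {v | ∃ A : Set X, (∀ a ∈ A, ∀ b ∈ A, dist a b ≤ S) ∧
    v = fun x : F => ε * ind A (x : X) - ind (bd R A) (x : X)}
  let P : Set (F → ℝ) := {v | ∀ x, 0 < v x}
  have hP : P = Set.pi Set.univ (fun _ => Set.Ioi 0) := by ext v; simp [P]
  have hPopen : IsOpen P := by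
    rw [hP]
    exact isOpen_set_pi Set.finite_univ fun _ _ => isOpen_Ioi
  have hPconv : Convex ℝ P := by
    rw [hP]
    exact convex_pi fun _ _ => convex_Ioi 0
  by_cases hdisj : Disjoint P (convexHull ℝ V)
  · exfalso
    obtain ⟨f, u, hf1, hf2⟩ := geometric_hahn_banach_open hPconv hPopen (convex_convexHull ℝ V) hdisj
    let e : F → (F → ℝ) := fun x => Pi.single x 1
    have hfv : ∀ v : F → ℝ, f v = ∑ x, v x * f (e x) := by
      intro v
      conv_lhs => rw [show v = ∑ x, v x • e x from by
        funext y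
        rw [Finset.sum_apply]
        simp only [e, Pi.smul_apply, smul_eq_mul, Pi.single_apply]
        simp]
      rw [map_sum]
      exact Finset.sum_congr rfl fun x _ => by rw [map_smul, smul_eq_mul]
    -- coordinates of `f` are nonpositive
    have hneg : ∀ x, f (e x) ≤ 0 := by
      intro x
      by_contra hpos
      push Not at hpos
      obtain ⟨t, ht⟩ := exists_nat_gt ((u - f (fun _ => 1)) / f (e x))
      have h1 : (fun _ => (1 : ℝ)) + (t : ℝ) • e x ∈ P := by
        intro y
        simp only [Pi.add_apply, Pi.smul_apply, smul_eq_mul, e, Pi.single_apply]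
        split_ifs <;> positivity
      have h2 := hf1 _ h1
      rw [map_add, map_smul, smul_eq_mul] at h2
      rw [div_lt_iff₀ hpos] at ht
      linarith
    have hu : 0 ≤ u := by
      by_contra hu
      push Not at hu
      have hc : Filter.Tendsto (fun s : ℝ => s * f (fun _ => 1)) (nhdsWithin 0 (Set.Ioi 0))
          (nhds (0 * f (fun _ => 1))) :=
        (Filter.Tendsto.mul_const _ Filter.tendsto_id).mono_left nhdsWithin_le_nhds
      rw [zero_mul] at hc
      have hev := hc.eventually (lt_mem_nhds hu)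
      obtain ⟨s, hs1, hs2⟩ := (hev.and self_mem_nhdsWithin).exists
      have hs2' : (0 : ℝ) < s := hs2
      have h1 : (fun _ : F => s) ∈ P := fun _ => hs2'
      have h2 := hf1 _ h1
      have h3 : f (fun _ => s) = s * f (fun _ => 1) := by
        rw [← smul_eq_mul, ← map_smul]
        congr 1
        funext y; simp
      rw [h3] at h2
      linarith
    -- the measure
    let μ : X → ℝ := fun x => if h : x ∈ F then -f (e ⟨x, h⟩) else 0
    have hμ : ∀ x, 0 ≤ μ x := by
      intro x
      simp only [μ]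
      split_ifs with h
      · have := hneg ⟨x, h⟩; linarith
      · exact le_rfl
    let F' := F.filter fun x => 0 < μ x
    have hF' : ∀ x, x ∈ F' ↔ 0 < μ x := by
      intro x
      simp only [F', Finset.mem_filter, and_iff_right_iff_imp]
      intro h
      by_contra hx
      simp [μ, hx] at h
    have hVemp : (fun _ => 0 : F → ℝ) ∈ V := ⟨∅, by simp, by
      funext x; simp [ind, bd]⟩
    have hne : F'.Nonempty := by
      by_contra hemp
      rw [Finset.not_nonempty_iff_eq_empty] at hemp
      have h0 : ∀ x, f (e x) = 0 := by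
        intro x
        have h1 : ¬ 0 < μ x := by rw [← hF', hemp]; simp
        have h2 : μ x = -f (e x) := by simp [μ]
        have h3 := hneg x
        have h4 := hμ x
        have h5 : μ x = 0 := le_antisymm (not_lt.mp h1) h4
        linarith
      have h1 : (fun _ : F => (1 : ℝ)) ∈ P := fun _ => one_pos
      have h2 := hf1 _ h1
      have h3 := hf2 _ (subset_convexHull ℝ V hVemp)
      rw [hfv] at h2 h3
      simp only [h0, mul_zero, Finset.sum_const_zero] at h2 h3
      linarith
    obtain ⟨A, hA, hApos, hAbd⟩ := hU μ hμ F' hF' hne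
    have hv : (fun x : F => ε * ind A x - ind (bd R A) x) ∈ V := ⟨A, hA, rfl⟩
    have h1 := hf2 _ (subset_convexHull ℝ V hv)
    rw [hfv] at h1
    have h2 : ∑ x : F, (ε * ind A x - ind (bd R A) x) * f (e x) =
        -∑ x ∈ F', μ x * (ε * ind A x - ind (bd R A) x) := by
      have h3 : ∑ x ∈ F', μ x * (ε * ind A x - ind (bd R A) x) =
          ∑ x ∈ F, μ x * (ε * ind A x - ind (bd R A) x) := by
        refine Finset.sum_subset (Finset.filter_subset _ _) fun x hx hx' => ?_
        have h4 : ¬ 0 < μ x := fun h => hx' ((hF' x).mpr h)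
        have h5 : μ x = 0 := le_antisymm (not_lt.mp h4) (hμ x)
        rw [h5, zero_mul]
      rw [h3, ← Finset.sum_coe_sort F, ← Finset.sum_neg_distrib]
      refine Finset.sum_congr rfl fun x _ => ?_
      have h6 : μ x = -f (e x) := by simp [μ]
      rw [h6]; ring
    rw [h2] at h1
    have h3 : ∑ x ∈ F', μ x * (ε * ind A x - ind (bd R A) x) =
        ε * ∑ x ∈ F', μ x * ind A x - ∑ x ∈ F', μ x * ind (bd R A) x := by
      rw [Finset.mul_sum, ← Finset.sum_sub_distrib]
      exact Finset.sum_congr rfl fun x _ => by ring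
    rw [h3] at h1
    nlinarith
  · rw [Set.not_disjoint_iff] at hdisj
    obtain ⟨v, hvP, hvV⟩ := hdisj
    rw [mem_convexHull_iff_exists_fintype] at hvV
    obtain ⟨ι, hι, w, z, hw0, -, hz, hsum⟩ := hvV
    choose A hA hzA using hz
    -- make the index type live in `Type`
    let n := Fintype.card ι
    let eqv : Fin n ≃ ι := (Fintype.equivFin ι).symm
    refine ⟨Fin n, inferInstance, fun i => w (eqv i), fun i => A (eqv i), fun i => hw0 _,
      fun i => hA _, ?_⟩
    intro x hx
    have h1 := hvP ⟨x, hx⟩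
    rw [← hsum, Finset.sum_apply] at h1
    simp only [Pi.smul_apply, smul_eq_mul, hzA] at h1
    have h2 : ∑ i, w i * (ε * ind (A i) x - ind (bd R (A i)) x) =
        ε * ∑ i, w i * ind (A i) x - ∑ i, w i * ind (bd R (A i)) x := by
      rw [Finset.mul_sum, ← Finset.sum_sub_distrib]
      exact Finset.sum_congr rfl fun i _ => by ring
    rw [h2] at h1
    have h3 : ∑ i, w (eqv i) * ind (bd R (A (eqv i))) x = ∑ i, w i * ind (bd R (A i)) x :=
      Fintype.sum_equiv eqv _ _ fun i => rfl
    have h4 : ∑ i, w (eqv i) * ind (A (eqv i)) x = ∑ i, w i * ind (A i) x :=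
      Fintype.sum_equiv eqv _ _ fun i => rfl
    rw [h3, h4]
    linarith

end

end Pool.Agent.MPe081a1
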