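import Pool.Agent.MP_e081a1_an.BoxSpace

/-!
The box space of the free group does not have property A.
-/

set_option autoImplicit false

namespace Pool.Agent.MPe081a1

open Classical in
/-- the proportion of a finite set lying in another set -/
noncomputable def prop {α : Type*} (a B : Set α) : ℝ := ((a ∩ B).ncard : ℝ) / (a.ncard : ℝ)

lemma prop_compare {α : Type*} (a b B : Set α) (ha : a.Finite) (hb : b.Finite)
    (hane : a.Nonempty) (hbne : b.Nonempty)
    (h : ((symmDiff a b).ncard : ℝ) < 1 / 8 * ((a ∩ b).ncard : ℝ)) :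
    prop a B ≤ prop b B + 1 / 4 := by
  have hapos : (0 : ℝ) < a.ncard := by
    exact_mod_cast (Set.ncard_pos ha).mpr hane
  have hbpos : (0 : ℝ) < b.ncard := by
    exact_mod_cast (Set.ncard_pos hb).mpr hbne
  have hia : ((a ∩ b).ncard : ℝ) ≤ a.ncard := by
    exact_mod_cast Set.ncard_le_ncard Set.inter_subset_left ha
  have hsd : (symmDiff a b).Finite := (ha.union hb).subset Set.symmDiff_subset_union
  have hd : ((symmDiff a b).ncard : ℝ) ≤ 1 / 8 * a.ncard := by nlinarith
  -- |a ∩ B| ≤ |b ∩ B| + |a Δ b|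
  have h1 : ((a ∩ B).ncard : ℝ) ≤ (b ∩ B).ncard + (symmDiff a b).ncard := by
    have : a ∩ B ⊆ (b ∩ B) ∪ symmDiff a b := by
      intro z hz
      by_cases hzb : z ∈ b
      · exact Or.inl ⟨hzb, hz.2⟩
      · exact Or.inr (Or.inl ⟨hz.1, hzb⟩)
    have h2 := Set.ncard_le_ncard this ((hb.subset Set.inter_subset_left).union hsd)
    have h3 := Set.ncard_union_le (b ∩ B) (symmDiff a b)
    exact_mod_cast h2.trans h3
  -- |b| ≤ |a| + |a Δ b|
  have h2 : (b.ncard : ℝ) ≤ a.ncard + (symmDiff a b).ncard := by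
    have : b ⊆ a ∪ symmDiff a b := by
      intro z hz
      by_cases hza : z ∈ a
      · exact Or.inl hza
      · exact Or.inr (Or.inr ⟨hz, hza⟩)
    have h2 := Set.ncard_le_ncard this (ha.union hsd)
    have h3 := Set.ncard_union_le a (symmDiff a b)
    exact_mod_cast h2.trans h3
  have h3 : ((b ∩ B).ncard : ℝ) ≤ b.ncard := by
    exact_mod_cast Set.ncard_le_ncard Set.inter_subset_left hb
  have h0 : (0 : ℝ) ≤ (b ∩ B).ncard := by positivity
  unfold prop
  rw [div_le_iff₀ hapos]
  have h4 : ((b ∩ B).ncard : ℝ) ≤ (b ∩ B).ncard / b.ncard * a.ncard + 1 / 8 * a.ncard := by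
    have h5 : ((b ∩ B).ncard : ℝ) = (b ∩ B).ncard / b.ncard * b.ncard := by
      field_simp
    have h6 : ((b ∩ B).ncard : ℝ) / b.ncard ≤ 1 := by
      rw [div_le_one hbpos]; exact h3
    have h7 : (0 : ℝ) ≤ (b ∩ B).ncard / b.ncard := by positivity
    nlinarith
  nlinarith

/-- the box space does not have property A -/
theorem box_not_A : ¬ (∀ R : ℝ, 0 < R → ∀ ε : ℝ, 0 < ε →
        ∃ S : ℝ, ∃ A : Box → Set (Box × ℕ),
          (∀ x, (A x).Finite) ∧ (∀ x, (x, 0) ∈ A x) ∧
          (∀ x, ∀ w ∈ A x, dist w.1 x ≤ S) ∧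
          ∀ x y, dist x y < R →
            ((symmDiff (A x) (A y)).ncard : ℝ) < ε * ((A x ∩ A y).ncard : ℝ)) := by
  intro H
  obtain ⟨S, A, hfin, h0, hS, hA⟩ := H 2 (by norm_num) (1 / 8) (by norm_num)
  set s : ℕ := ⌈S⌉₊ with hs
  have hSs : S ≤ s := Nat.le_ceil S
  set n : ℕ := 2 * s + 2 with hn
  have : Finite (Gn n) := inferInstance
  have : Fintype (Gn n) := Fintype.ofFinite _
  let a : Gn n → Set (Box × ℕ) := fun x => A ⟨n, x⟩
  have ha : ∀ x, (a x).Finite := fun x => hfin _
  have hane : ∀ x, (a x).Nonempty := fun x => ⟨_, h0 ⟨n, x⟩⟩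
  -- every point of `a x` is `x * pr g` with `g` short
  have hpt : ∀ x, ∀ w ∈ a x, ∃ g : F2, FreeGroup.norm g ≤ s ∧ w.1 = ⟨n, x * pr n g⟩ := by
    intro x w hw
    have h1 := hS _ w hw
    rw [dist_box] at h1
    have h2 : D w.1 ⟨n, x⟩ ≤ s := by
      have : (D w.1 ⟨n, x⟩ : ℝ) ≤ s := h1.trans hSs
      exact_mod_cast this
    obtain ⟨⟨m, y⟩, j⟩ := w
    by_cases h : n = m
    · subst h
      simp only at h2
      rw [D_comm, D_same] at h2
      obtain ⟨g, hg, hx⟩ := exists_word n (x⁻¹ * y)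
      refine ⟨g, by omega, ?_⟩
      simp only
      rw [hx]
      simp
    · simp only at h2
      rw [D_comm, D_diff n m h] at h2
      omega
  let Y : Fin 2 × Bool → Gn n → Set (Box × ℕ) := fun t x =>
    {w | ∃ h : F2, FreeGroup.norm h ≤ s + 1 ∧ h ∈ FreeGroup.startsWith t ∧ w.1 = ⟨n, x * pr n h⟩}
  -- disjointness
  have hdisj : ∀ x, ∀ t t' : Fin 2 × Bool, t ≠ t' → Disjoint (Y t x) (Y t' x) := by
    intro x t t' htt
    rw [Set.disjoint_left]
    rintro w ⟨h, hh, hst, hw⟩ ⟨h', hh', hst', hw'⟩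
    rw [hw] at hw'
    have e : x * pr n h = x * pr n h' := by
      have := hw'
      simp only [Box.mk.injEq, heq_eq_eq, true_and] at this
      exact this
    have e2 : pr n (h⁻¹ * h') = 1 := by
      rw [map_mul, map_inv]
      have := mul_left_cancel e
      rw [this]; simp
    have hnorm : FreeGroup.norm (h⁻¹ * h') ≤ n := by
      refine (FreeGroup.norm_mul_le _ _).trans ?_
      rw [FreeGroup.norm_inv_eq]
      omega
    have e3 := pr_inj n _ hnorm e2
    have e4 : h = h' := by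
      have : h * (h⁻¹ * h') = h := by rw [e3, mul_one]
      rw [← this]; group
    rw [← e4] at hst'
    simp only [FreeGroup.startsWith, Set.mem_ofPred_eq] at hst hst'
    rw [hst] at hst'
    exact htt (by simpa using hst')
  -- sum of proportions at most one
  have hsum : ∀ x, prop (a x) (Y (0, true) x) + prop (a x) (Y (0, false) x)
      + prop (a x) (Y (1, true) x) + prop (a x) (Y (1, false) x) ≤ 1 := by
    intro x
    have hpos : (0 : ℝ) < (a x).ncard := by exact_mod_cast (Set.ncard_pos (ha x)).mpr (hane x)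
    have hf : ∀ t, (a x ∩ Y t x).Finite := fun t => (ha x).subset Set.inter_subset_left
    have hd : ∀ t t', t ≠ t' → Disjoint (a x ∩ Y t x) (a x ∩ Y t' x) := fun t t' htt =>
      (hdisj x t t' htt).mono Set.inter_subset_right Set.inter_subset_right
    have hcard : (a x ∩ Y (0, true) x).ncard + (a x ∩ Y (0, false) x).ncard
        + (a x ∩ Y (1, true) x).ncard + (a x ∩ Y (1, false) x).ncard ≤ (a x).ncard := by
      rw [← Set.ncard_union_eq (hd _ _ (by decide)) (hf _) (hf _),
        ← Set.ncard_union_eq _ ((hf _).union (hf _)) (hf _),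
        ← Set.ncard_union_eq _ (((hf _).union (hf _)).union (hf _)) (hf _)]
      · apply Set.ncard_le_ncard _ (ha x)
        intro z hz
        rcases hz with ((hz | hz) | hz) | hz <;> exact hz.1
      · rw [Set.disjoint_union_left, Set.disjoint_union_left]
        exact ⟨⟨hd _ _ (by decide), hd _ _ (by decide)⟩, hd _ _ (by decide)⟩
      · rw [Set.disjoint_union_left]
        exact ⟨hd _ _ (by decide), hd _ _ (by decide)⟩
    unfold prop
    rw [← add_div, ← add_div, ← add_div, div_le_one hpos]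
    exact_mod_cast hcard
  -- translation
  have hcover : ∀ x, ∀ i : Fin 2, ∀ b : Bool,
      a x ∩ (Y (i, !b) x)ᶜ ⊆ a x ∩ Y (i, b) (x * (pr n (FreeGroup.mk [(i, b)]))⁻¹) := by
    rintro x i b w ⟨hw, hnot⟩
    refine ⟨hw, ?_⟩
    obtain ⟨g, hg, hwg⟩ := hpt x w hw
    have hg' : g ∉ FreeGroup.startsWith (i, !b) := fun hmem =>
      hnot ⟨g, by omega, hmem, hwg⟩
    refine ⟨FreeGroup.mk [(i, b)] * g, ?_, FreeGroup.startsWith_mk_mul g hg', ?_⟩
    · refine (FreeGroup.norm_mul_le _ _).trans ?_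
      have : FreeGroup.norm (FreeGroup.mk [(i, b)] : F2) ≤ 1 := FreeGroup.norm_mk_le
      omega
    · rw [hwg, map_mul]
      congr 1
      group
  have hstep : ∀ x, ∀ i : Fin 2, ∀ b : Bool,
      1 - prop (a x) (Y (i, !b) x) ≤
        prop (a (x * (pr n (FreeGroup.mk [(i, b)]))⁻¹))
          (Y (i, b) (x * (pr n (FreeGroup.mk [(i, b)]))⁻¹)) + 1 / 4 := by
    intro x i b
    set x' := x * (pr n (FreeGroup.mk [(i, b)]))⁻¹ with hx'
    have hpos : (0 : ℝ) < (a x).ncard := by exact_mod_cast (Set.ncard_pos (ha x)).mpr (hane x)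
    have hdist : dist (⟨n, x⟩ : Box) ⟨n, x'⟩ < 2 := by
      rw [dist_box, D_same]
      have : x⁻¹ * x' = (pr n (FreeGroup.mk [(i, b)]))⁻¹ := by rw [hx']; group
      rw [this, len_inv]
      have h1 := len_le n (FreeGroup.mk [(i, b)])
      have h2 : FreeGroup.norm (FreeGroup.mk [(i, b)] : F2) ≤ 1 := FreeGroup.norm_mk_le
      have h3 : len n (pr n (FreeGroup.mk [(i, b)])) ≤ 1 := h1.trans h2
      have h4 : ((len n (pr n (FreeGroup.mk [(i, b)])) : ℕ) : ℝ) ≤ 1 := by exact_mod_cast h3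
      linarith
    have hcmp := prop_compare (a x) (a x') (Y (i, b) x') (ha x) (ha x') (hane x) (hane x')
      (hA _ _ hdist)
    refine le_trans ?_ hcmp
    have h1 : ((a x).ncard : ℝ) = (a x ∩ Y (i, !b) x).ncard + (a x ∩ (Y (i, !b) x)ᶜ).ncard := by
      have := Set.ncard_inter_add_ncard_sdiff_eq_ncard (a x) (Y (i, !b) x) (ha x)
      rw [Set.sdiff_eq] at this
      exact_mod_cast this.symm
    have h2 : ((a x ∩ (Y (i, !b) x)ᶜ).ncard : ℝ) ≤ (a x ∩ Y (i, b) x').ncard := by
      exact_mod_cast Set.ncard_le_ncard (hcover x i b) ((ha x).subset Set.inter_subset_left)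
    unfold prop
    rw [← div_self hpos.ne', ← sub_div]
    apply div_le_div_of_nonneg_right _ hpos.le
    linarith
  -- sum over the group
  let P : Fin 2 × Bool → ℝ := fun t => ∑ x : Gn n, prop (a x) (Y t x)
  have hP : ∀ i : Fin 2, ∀ b : Bool, (Fintype.card (Gn n) : ℝ) - P (i, !b) ≤
      P (i, b) + 1 / 4 * Fintype.card (Gn n) := by
    intro i b
    have h1 : ∑ x : Gn n, (1 - prop (a x) (Y (i, !b) x)) ≤
        ∑ x : Gn n, (prop (a (x * (pr n (FreeGroup.mk [(i, b)]))⁻¹))
          (Y (i, b) (x * (pr n (FreeGroup.mk [(i, b)]))⁻¹)) + 1 / 4) :=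
      Finset.sum_le_sum fun x _ => hstep x i b
    rw [Finset.sum_sub_distrib, Finset.sum_add_distrib] at h1
    have h2 : ∑ x : Gn n, prop (a (x * (pr n (FreeGroup.mk [(i, b)]))⁻¹))
          (Y (i, b) (x * (pr n (FreeGroup.mk [(i, b)]))⁻¹)) = P (i, b) :=
      Fintype.sum_equiv (Equiv.mulRight (pr n (FreeGroup.mk [(i, b)]))⁻¹) _ _ (fun x => rfl)
    rw [h2] at h1
    simp only [Finset.sum_const, Finset.card_univ, nsmul_eq_mul, mul_one] at h1
    linarith
  have hPsum : P (0, true) + P (0, false) + P (1, true) + P (1, false) ≤ Fintype.card (Gn n) := by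
    have : P (0, true) + P (0, false) + P (1, true) + P (1, false) =
        ∑ x : Gn n, (prop (a x) (Y (0, true) x) + prop (a x) (Y (0, false) x)
      + prop (a x) (Y (1, true) x) + prop (a x) (Y (1, false) x)) := by
      simp only [P, Finset.sum_add_distrib]
    rw [this]
    calc _ ≤ ∑ x : Gn n, (1 : ℝ) := Finset.sum_le_sum fun x _ => hsum x
      _ = _ := by simp
  have hcardpos : (0 : ℝ) < Fintype.card (Gn n) := by
    exact_mod_cast Fintype.card_pos
  have e0 := hP 0 true
  have e1 := hP 1 true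
  simp only [Bool.not_true] at e0 e1
  linarith

end Pool.Agent.MPe081a1
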