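import Mathlib

/-!
For `p = 1` every bounded operator on `L^1(X, ν; E)` with `X` countable localizes on a single point.
-/

set_option autoImplicit false

open MeasureTheory
open scoped ENNReal

namespace Pool.Agent.MPe081a1

/-- the exponent-one case: localization on a point -/
theorem exists_localized_point {X : Type*} [MeasurableSpace X] [MeasurableSingletonClass X]
    [Countable X] {𝕜 : Type*} [RCLike 𝕜] {E : Type*} [NormedAddCommGroup E] [NormedSpace 𝕜 E]
    (ν : Measure X) (T : Lp E 1 ν →L[𝕜] Lp E 1 ν) (hT : T ≠ 0) :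
    ∃ x : X, ∃ ξ : Lp E 1 ν, ξ ≠ 0 ∧ (∀ᵐ z ∂ν, z ∉ ({x} : Set X) → (ξ : X → E) z = 0) ∧
      1 / 2 * ‖T‖ * ‖ξ‖ ≤ ‖T ξ‖ := by
  classical
  have hTpos : 0 < ‖T‖ := norm_pos_iff.mpr hT
  by_contra hcon
  push Not at hcon
  -- every function is bounded by half the norm
  have key : ∀ g : Lp E 1 ν, ‖T g‖ ≤ (1 / 2 * ‖T‖) * ‖g‖ := by
    intro g
    -- pieces
    have hmem : ∀ s : Set X, MemLp (s.indicator (g : X → E)) 1 ν := fun s =>
      (Lp.memLp g).indicator (Set.to_countable s).measurableSet
    let gs : Set X → Lp E 1 ν := fun s => (hmem s).toLp _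
    have hgs : ∀ s : Set X, (gs s : X → E) =ᵐ[ν] s.indicator (g : X → E) := fun s =>
      (hmem s).coeFn_toLp
    have hnorm : ∀ s : Set X, ‖gs s‖ = ∫ z in s, ‖g z‖ ∂ν := by
      intro s
      rw [L1.norm_eq_integral_norm, ← integral_indicator (Set.to_countable s).measurableSet]
      apply integral_congr_ae
      filter_upwards [hgs s] with z hz
      rw [hz]
      by_cases h : z ∈ s <;> simp [h]
    have hpiece : ∀ x : X, ‖T (gs {x})‖ ≤ (1 / 2 * ‖T‖) * ‖gs {x}‖ := by
      intro x
      by_cases h0 : gs {x} = 0
      · rw [h0]; simp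
      · refine (hcon x (gs {x}) h0 ?_).le
        filter_upwards [hgs {x}] with z hz hzx
        rw [hz]
        simp [hzx]
    have hsum : ∀ F : Finset X, gs (F : Set X) = ∑ x ∈ F, gs {x} := by
      intro F
      induction F using Finset.induction_on with
      | empty =>
        simp only [Finset.coe_empty, Finset.sum_empty]
        apply Lp.ext
        filter_upwards [hgs ∅, Lp.coeFn_zero E 1 ν] with z hz hz0
        rw [hz, hz0]
        simp
      | insert a F ha ih =>
        rw [Finset.sum_insert ha, ← ih]
        apply Lp.ext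
        filter_upwards [hgs (insert a F : Finset X), hgs {a}, hgs F,
          Lp.coeFn_add (gs {a}) (gs (F : Set X))] with z h1 h2 h3 h4
        rw [h1, h4, Pi.add_apply, h2, h3, Finset.coe_insert, Set.insert_eq,
          Set.indicator_union_of_disjoint (by simpa using ha)]
    have hbound : ∀ F : Finset X, ‖T (gs (F : Set X))‖ ≤ (1 / 2 * ‖T‖) * ‖g‖ := by
      intro F
      have hle : ∑ x ∈ F, ‖gs {x}‖ ≤ ‖g‖ := by
        have h1 : ∑ x ∈ F, ‖gs {x}‖ = ∫ z in (F : Set X), ‖g z‖ ∂ν := by
          simp_rw [hnorm]
          have := integral_biUnion_finset (μ := ν) (f := fun z => ‖g z‖) F (s := fun x => ({x} : Set X))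
            (fun i _ => measurableSet_singleton i)
            (by
              intro i _ j _ hij
              simpa [Function.onFun] using hij)
            (fun i _ => (L1.integrable_coeFn g).norm.integrableOn)
          rw [← this]
          congr 2
          ext z; simp
        rw [h1, L1.norm_eq_integral_norm]
        exact setIntegral_le_integral (L1.integrable_coeFn g).norm
          (Filter.Eventually.of_forall fun z => norm_nonneg _)
      rw [hsum, map_sum]
      calc ‖∑ x ∈ F, T (gs {x})‖ ≤ ∑ x ∈ F, ‖T (gs {x})‖ := norm_sum_le _ _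
        _ ≤ ∑ x ∈ F, (1 / 2 * ‖T‖) * ‖gs {x}‖ := Finset.sum_le_sum fun x _ => hpiece x
        _ = (1 / 2 * ‖T‖) * ∑ x ∈ F, ‖gs {x}‖ := by rw [Finset.mul_sum]
        _ ≤ (1 / 2 * ‖T‖) * ‖g‖ := by gcongr
    -- convergence
    have hlim : Filter.Tendsto (fun F : Finset X => gs (F : Set X)) Filter.atTop (nhds g) := by
      rw [tendsto_iff_norm_sub_tendsto_zero]
      have hn : ∀ F : Finset X, ‖gs (F : Set X) - g‖ = ‖g‖ - ∑ x ∈ F, ∫ z in {x}, ‖g z‖ ∂ν := by
        intro F
        have h1 : ∑ x ∈ F, ∫ z in {x}, ‖g z‖ ∂ν = ∫ z in (F : Set X), ‖g z‖ ∂ν := by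
          have := integral_biUnion_finset (μ := ν) (f := fun z => ‖g z‖) F (s := fun x => ({x} : Set X))
            (fun i _ => measurableSet_singleton i)
            (by
              intro i _ j _ hij
              simpa [Function.onFun] using hij)
            (fun i _ => (L1.integrable_coeFn g).norm.integrableOn)
          rw [← this]
          congr 2
          ext z; simp
        rw [h1, L1.norm_eq_integral_norm, L1.norm_eq_integral_norm,
          ← integral_add_compl (F.measurableSet) (L1.integrable_coeFn g).norm]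
        have h2 : ∫ z, ‖(gs (F : Set X) - g : Lp E 1 ν) z‖ ∂ν = ∫ z in (F : Set X)ᶜ, ‖g z‖ ∂ν := by
          rw [← integral_indicator (F.measurableSet).compl]
          apply integral_congr_ae
          filter_upwards [hgs F, Lp.coeFn_sub (gs (F : Set X)) g] with z h3 h4
          rw [h4, Pi.sub_apply, h3]
          by_cases h : z ∈ (F : Set X) <;> simp [h]
        rw [h2]
        ring
      simp_rw [hn]
      have hs : HasSum (fun x : X => ∫ z in {x}, ‖g z‖ ∂ν) (∫ z in ⋃ x : X, {x}, ‖g z‖ ∂ν) :=
        hasSum_integral_iUnion (fun i => measurableSet_singleton i)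
          (by
            intro i j hij
            simpa [Function.onFun] using hij) (L1.integrable_coeFn g).norm.integrableOn
      have hu : (⋃ x : X, ({x} : Set X)) = Set.univ := by ext z; simp
      rw [hu, Measure.restrict_univ, ← L1.norm_eq_integral_norm] at hs
      have := (tendsto_const_nhds (x := ‖g‖)).sub hs
      simpa using this
    have hlimT : Filter.Tendsto (fun F : Finset X => ‖T (gs (F : Set X))‖) Filter.atTop
        (nhds ‖T g‖) := ((T.continuous.tendsto g).comp hlim).norm
    exact le_of_tendsto hlimT (Filter.Eventually.of_forall hbound)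
  have : ‖T‖ ≤ 1 / 2 * ‖T‖ := T.opNorm_le_bound (by positivity) key
  linarith

end Pool.Agent.MPe081a1
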