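import Pool.Agent.MP_e081a1_an.Ula
import Pool.Agent.MP_e081a1_an.OneOnl

/-!
Every bounded geometry metric space has the `1`-operator norm localization property.
-/

set_option autoImplicit false

open MeasureTheory
open scoped ENNReal

namespace Pool.Agent.MPe081a1

lemma countable_of_bg {X : Type*} [MetricSpace X] (hBG : BoundedGeometry X) : Countable X := by
  rcases isEmpty_or_nonempty X with h | ⟨⟨x₀⟩⟩
  · infer_instance
  rw [← Set.countable_univ_iff]
  have hu : (Set.univ : Set X) ⊆ ⋃ n : ℕ, Metric.ball x₀ ((n : ℝ) + 1) := by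
    intro z _
    obtain ⟨n, hn⟩ := exists_nat_gt (dist z x₀)
    exact Set.mem_iUnion.mpr ⟨n, by rw [Metric.mem_ball]; linarith⟩
  refine Set.Countable.mono hu (Set.countable_iUnion fun n => ?_)
  obtain ⟨N, hN⟩ := hBG ((n : ℝ) + 1) (by positivity)
  exact (hN x₀).1.countable

/-- for `p = 1` localization is automatic -/
theorem ponl_one {X : Type*} [MetricSpace X] [MeasurableSpace X] [BorelSpace X]
    (hBG : BoundedGeometry X) (𝕜 : Type*) [RCLike 𝕜] (E : Type*) [NormedAddCommGroup E]
    [NormedSpace 𝕜 E] [Nontrivial E] : PONL 𝕜 E 1 X := by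
  have hcount : Countable X := countable_of_bg hBG
  refine ⟨1 / 2, by norm_num, by norm_num, fun _ => 0, monotone_const, ?_⟩
  intro ν hν hν0 r T _
  by_cases hT : T = 0
  · have hex : ∃ x, ν {x} ≠ 0 := by
      by_contra hcon
      push Not at hcon
      apply hν0
      rw [← Measure.measure_univ_eq_zero]
      rw [← Set.biUnion_of_singleton (Set.univ : Set X)]
      exact (measure_biUnion_null_iff Set.countable_univ).mpr fun x _ => hcon x
    obtain ⟨x, hx⟩ := hex
    have hfin : ν {x} ≠ ⊤ := measure_singleton_lt_top.ne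
    obtain ⟨v, hv⟩ := exists_ne (0 : E)
    refine ⟨indicatorConstLp 1 (measurableSet_singleton x) hfin v, ?_, ⟨{x}, ?_, ?_⟩, ?_⟩
    · rw [← norm_pos_iff, norm_indicatorConstLp one_ne_zero ENNReal.one_ne_top]
      have : 0 < ν.real {x} := ENNReal.toReal_pos hx hfin
      have : 0 < ‖v‖ := norm_pos_iff.mpr hv
      positivity
    · intro a ha b hb
      rw [Set.mem_singleton_iff] at ha hb
      rw [ha, hb]
      simp
    · filter_upwards [indicatorConstLp_coeFn (p := 1) (hs := measurableSet_singleton x)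
        (hμs := hfin) (c := v)] with z hz hzx
      rw [hz]
      simp [hzx]
    · rw [hT]; simp
  · obtain ⟨x, ξ, h1, h2, h3⟩ := exists_localized_point ν T hT
    refine ⟨ξ, h1, ⟨{x}, ?_, h2⟩, h3⟩
    intro a ha b hb
    rw [Set.mem_singleton_iff] at ha hb
    rw [ha, hb]
    simp

end Pool.Agent.MPe081a1
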