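import Pool.Agent.MP_e081a1_an.Conduct

/-!
The Markov operator on `L^p(X, ν; E)` for a finitely supported measure `ν`.
-/

set_option autoImplicit false

open MeasureTheory
open scoped ENNReal

namespace Pool.Agent.MPe081a1

variable {X : Type*} [MeasurableSpace X] [MeasurableSingletonClass X]

/-- the finitely supported measure with weights `μ` -/
noncomputable def nu (F : Finset X) (μ : X → ℝ) : Measure X :=
  ∑ x ∈ F, ENNReal.ofReal (μ x) • Measure.dirac x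

lemma lintegral_nu (F : Finset X) (μ : X → ℝ) (f : X → ℝ≥0∞) :
    ∫⁻ z, f z ∂(nu F μ) = ∑ x ∈ F, ENNReal.ofReal (μ x) * f x := by
  unfold nu
  rw [lintegral_finsetSum_measure]
  refine Finset.sum_congr rfl fun x _ => ?_
  rw [lintegral_smul_measure, lintegral_dirac, smul_eq_mul]

lemma ae_nu {F : Finset X} {μ : X → ℝ} (hF : ∀ x ∈ F, 0 < μ x) (P : X → Prop) :
    (∀ᵐ z ∂(nu F μ), P z) ↔ ∀ x ∈ F, P x := by
  rw [ae_iff]
  unfold nu
  rw [Measure.finsetSum_apply, Finset.sum_eq_zero_iff]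
  refine forall₂_congr fun x hx => ?_
  rw [Measure.smul_apply, Measure.dirac_apply, smul_eq_mul, mul_eq_zero]
  have h1 : ENNReal.ofReal (μ x) ≠ 0 := by
    rw [Ne, ENNReal.ofReal_eq_zero, not_le]; exact hF x hx
  simp only [h1, false_or]
  by_cases h : P x <;> simp [h]

instance (F : Finset X) (μ : X → ℝ) : IsFiniteMeasure (nu F μ) := by
  constructor
  unfold nu
  rw [Measure.finsetSum_apply]
  refine ENNReal.sum_lt_top.mpr fun x _ => ?_
  rw [Measure.smul_apply, smul_eq_mul]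
  simp

lemma nu_ne_zero {F : Finset X} {μ : X → ℝ} (hF : ∀ x ∈ F, 0 < μ x) (hne : F.Nonempty) :
    nu F μ ≠ 0 := by
  intro h
  obtain ⟨x, hx⟩ := hne
  have h1 : ∀ᵐ z ∂(nu F μ), False := by rw [h]; simp
  rw [ae_nu hF] at h1
  exact h1 x hx

lemma aesm_nu {E : Type*} [NormedAddCommGroup E] (F : Finset X) (μ : X → ℝ) (f : X → E) :
    AEStronglyMeasurable f (nu F μ) := by
  classical
  unfold nu
  induction F using Finset.induction_on with
  | empty => simp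
  | insert a s ha ih =>
    rw [Finset.sum_insert ha, aestronglyMeasurable_add_measure_iff]
    exact ⟨aestronglyMeasurable_dirac.smul_measure _, ih⟩

variable {E : Type*} [NormedAddCommGroup E]

lemma eLpNorm_nu {F : Finset X} {μ : X → ℝ} (hF : ∀ x ∈ F, 0 < μ x) {p : ℝ≥0∞} (hp0 : p ≠ 0)
    (hp : p ≠ ∞) (f : X → E) :
    eLpNorm f p (nu F μ) = ENNReal.ofReal ((∑ x ∈ F, μ x * ‖f x‖ ^ p.toReal) ^ (1 / p.toReal)) := by
  have hq : 0 < p.toReal := ENNReal.toReal_pos hp0 hp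
  rw [eLpNorm_eq_lintegral_rpow_enorm_toReal hp0 hp, lintegral_nu]
  have h1 : ∑ x ∈ F, ENNReal.ofReal (μ x) * ‖f x‖ₑ ^ p.toReal =
      ENNReal.ofReal (∑ x ∈ F, μ x * ‖f x‖ ^ p.toReal) := by
    rw [ENNReal.ofReal_sum_of_nonneg (fun x hx => by have := hF x hx; positivity)]
    refine Finset.sum_congr rfl fun x hx => ?_
    rw [ENNReal.ofReal_mul (hF x hx).le, ← ofReal_norm,
      ENNReal.ofReal_rpow_of_nonneg (norm_nonneg _) hq.le]
  rw [h1, ENNReal.ofReal_rpow_of_nonneg (Finset.sum_nonneg fun x hx => by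
    have := hF x hx; positivity) (by positivity)]

lemma memLp_nu {F : Finset X} {μ : X → ℝ} (hF : ∀ x ∈ F, 0 < μ x) {p : ℝ≥0∞} (hp0 : p ≠ 0)
    (hp : p ≠ ∞) (f : X → E) : MemLp f p (nu F μ) :=
  ⟨aesm_nu F μ f, by rw [eLpNorm_nu hF hp0 hp]; exact ENNReal.ofReal_lt_top⟩

lemma norm_rpow_nu {F : Finset X} {μ : X → ℝ} (hF : ∀ x ∈ F, 0 < μ x) {p : ℝ≥0∞} (hp0 : p ≠ 0)
    (hp : p ≠ ∞) (g : Lp E p (nu F μ)) :
    ‖g‖ ^ p.toReal = ∑ x ∈ F, μ x * ‖g x‖ ^ p.toReal := by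
  have hq : 0 < p.toReal := ENNReal.toReal_pos hp0 hp
  have hs : 0 ≤ ∑ x ∈ F, μ x * ‖g x‖ ^ p.toReal :=
    Finset.sum_nonneg fun x hx => by have := hF x hx; positivity
  rw [Lp.norm_def, eLpNorm_nu hF hp0 hp, ENNReal.toReal_ofReal (by positivity),
    ← Real.rpow_mul hs, one_div, inv_mul_cancel₀ hq.ne', Real.rpow_one]

variable {𝕜 : Type*} [RCLike 𝕜] [NormedSpace 𝕜 E] [DecidableEq X]

/-- the Markov operator on `E`-valued functions -/
noncomputable def mkE (𝕜 : Type*) [RCLike 𝕜] {E : Type*} [NormedAddCommGroup E] [NormedSpace 𝕜 E]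
    (F : Finset X) (μ : X → ℝ) (a : X → X → ℝ) (g : X → E) (x : X) : E :=
  ∑ y ∈ F, ((a x y / μ x : ℝ) : 𝕜) • g y

lemma norm_mkE_le {F : Finset X} {μ : X → ℝ} {a : X → X → ℝ} (hc : Chain F μ a) (g : X → E)
    {x : X} (hx : x ∈ F) : ‖mkE 𝕜 F μ a g x‖ ≤ mk F μ a (fun y => ‖g y‖) x := by
  unfold mkE mk
  refine (norm_sum_le _ _).trans (Finset.sum_le_sum fun y hy => ?_)
  rw [norm_smul, RCLike.norm_ofReal, abs_of_nonneg]
  have := hc.pos x hx
  have := hc.nonneg x hx y hy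
  positivity

lemma mk_contract {F : Finset X} {μ : X → ℝ} {a : X → X → ℝ} (hc : Chain F μ a) {q : ℝ}
    (hq : 1 < q) (h : X → ℝ) (hh : ∀ x, 0 ≤ h x) :
    ∑ x ∈ F, μ x * (mk F μ a h x) ^ q ≤ ∑ x ∈ F, μ x * (h x) ^ q := by
  have h1 := global_gap hc hq h hh
  have h2 : 0 ≤ ∑ x ∈ F, ∑ y ∈ F, a x y * defect q (h x) (h y) :=
    Finset.sum_nonneg fun x hx => Finset.sum_nonneg fun y hy =>
      mul_nonneg (hc.nonneg x hx y hy) (defect_nonneg hq (hh x) (hh y))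
  linarith

lemma mk_nonneg {F : Finset X} {μ : X → ℝ} {a : X → X → ℝ} (hc : Chain F μ a) (h : X → ℝ)
    (hh : ∀ x, 0 ≤ h x) {x : X} (hx : x ∈ F) : 0 ≤ mk F μ a h x := by
  unfold mk
  refine Finset.sum_nonneg fun y hy => ?_
  have := hc.pos x hx
  have := hc.nonneg x hx y hy
  have := hh y
  positivity

/-- the Markov operator as a linear map -/
noncomputable def TL (𝕜 : Type*) [RCLike 𝕜] {E : Type*} [NormedAddCommGroup E] [NormedSpace 𝕜 E]
    {p : ℝ≥0∞} [Fact (1 ≤ p)] (hp : p ≠ ∞)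
    {F : Finset X} {μ : X → ℝ} {a : X → X → ℝ} (hc : Chain F μ a) :
    Lp E p (nu F μ) →ₗ[𝕜] Lp E p (nu F μ) where
  toFun g := (memLp_nu hc.pos (zero_lt_one.trans_le Fact.out).ne' hp (mkE 𝕜 F μ a g)).toLp _
  map_add' g h := by
    rw [← MemLp.toLp_add]
    apply MemLp.toLp_congr
    rw [Filter.EventuallyEq, ae_nu hc.pos]
    intro x hx
    have h1 := (ae_nu hc.pos _).mp (Lp.coeFn_add g h)
    simp only [mkE, Pi.add_apply]
    rw [← Finset.sum_add_distrib]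
    refine Finset.sum_congr rfl fun y hy => ?_
    rw [h1 y hy, Pi.add_apply, smul_add]
  map_smul' c g := by
    rw [RingHom.id_apply, ← MemLp.toLp_const_smul]
    apply MemLp.toLp_congr
    rw [Filter.EventuallyEq, ae_nu hc.pos]
    intro x hx
    have h1 := (ae_nu hc.pos _).mp (Lp.coeFn_smul c g)
    simp only [mkE, Pi.smul_apply]
    rw [Finset.smul_sum]
    refine Finset.sum_congr rfl fun y hy => ?_
    rw [h1 y hy, Pi.smul_apply, smul_comm]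

lemma TL_apply {p : ℝ≥0∞} [Fact (1 ≤ p)] (hp : p ≠ ∞)
    {F : Finset X} {μ : X → ℝ} {a : X → X → ℝ} (hc : Chain F μ a) (g : Lp E p (nu F μ))
    {x : X} (hx : x ∈ F) : (TL 𝕜 hp hc g : X → E) x = mkE 𝕜 F μ a g x := by
  have := (ae_nu hc.pos _).mp (memLp_nu hc.pos (zero_lt_one.trans_le Fact.out).ne' hp
    (mkE 𝕜 F μ a g)).coeFn_toLp
  exact this x hx

lemma TL_norm_le {p : ℝ≥0∞} [Fact (1 ≤ p)] (hp : p ≠ ∞) (hp1 : 1 < p.toReal)
    {F : Finset X} {μ : X → ℝ} {a : X → X → ℝ} (hc : Chain F μ a) (g : Lp E p (nu F μ)) :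
    ‖TL 𝕜 hp hc g‖ ≤ 1 * ‖g‖ := by
  have hp0 : p ≠ 0 := (zero_lt_one.trans_le Fact.out).ne'
  have hq : 0 < p.toReal := by linarith
  rw [one_mul, ← Real.rpow_le_rpow_iff (norm_nonneg _) (norm_nonneg _) hq,
    norm_rpow_nu hc.pos hp0 hp, norm_rpow_nu hc.pos hp0 hp]
  refine le_trans ?_ (mk_contract hc hp1 (fun y => ‖g y‖) fun y => norm_nonneg _)
  refine Finset.sum_le_sum fun x hx => ?_
  have h1 := hc.pos x hx
  rw [TL_apply hp hc g hx]
  have h2 := norm_mkE_le (𝕜 := 𝕜) hc (g : X → E) hx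
  gcongr

/-- the Markov operator as a continuous linear map -/
noncomputable def TC (𝕜 : Type*) [RCLike 𝕜] {E : Type*} [NormedAddCommGroup E] [NormedSpace 𝕜 E]
    {p : ℝ≥0∞} [Fact (1 ≤ p)] (hp : p ≠ ∞) (hp1 : 1 < p.toReal)
    {F : Finset X} {μ : X → ℝ} {a : X → X → ℝ} (hc : Chain F μ a) :
    Lp E p (nu F μ) →L[𝕜] Lp E p (nu F μ) :=
  (TL 𝕜 hp hc).mkContinuous 1 (TL_norm_le hp hp1 hc)

lemma TC_apply {p : ℝ≥0∞} [Fact (1 ≤ p)] (hp : p ≠ ∞) (hp1 : 1 < p.toReal)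
    {F : Finset X} {μ : X → ℝ} {a : X → X → ℝ} (hc : Chain F μ a) (g : Lp E p (nu F μ))
    {x : X} (hx : x ∈ F) : (TC 𝕜 hp hp1 hc g : X → E) x = mkE 𝕜 F μ a g x :=
  TL_apply hp hc g hx

lemma TC_norm_le {p : ℝ≥0∞} [Fact (1 ≤ p)] (hp : p ≠ ∞) (hp1 : 1 < p.toReal)
    {F : Finset X} {μ : X → ℝ} {a : X → X → ℝ} (hc : Chain F μ a) (g : Lp E p (nu F μ)) :
    ‖TC 𝕜 hp hp1 hc g‖ ≤ ‖g‖ := by
  have := TL_norm_le (𝕜 := 𝕜) hp hp1 hc g
  rw [one_mul] at this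
  exact this

/-- the powers of the Markov operator have norm at least one -/
lemma one_le_norm_pow [Nontrivial E] {p : ℝ≥0∞} [Fact (1 ≤ p)] (hp : p ≠ ∞) (hp1 : 1 < p.toReal)
    {F : Finset X} {μ : X → ℝ} {a : X → X → ℝ} (hc : Chain F μ a) (hne : F.Nonempty) (n : ℕ) :
    1 ≤ ‖(TC 𝕜 hp hp1 hc (E := E)) ^ n‖ := by
  have hp0 : p ≠ 0 := (zero_lt_one.trans_le Fact.out).ne'
  have hq : 0 < p.toReal := by linarith
  obtain ⟨e, he⟩ := exists_ne (0 : E)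
  let k : Lp E p (nu F μ) := (memLp_nu hc.pos hp0 hp (fun _ => e)).toLp _
  have hk : ∀ x ∈ F, (k : X → E) x = e := (ae_nu hc.pos _).mp
    (memLp_nu hc.pos hp0 hp (fun _ => e)).coeFn_toLp
  have hfix : TC 𝕜 hp hp1 hc k = k := by
    apply Lp.ext
    rw [Filter.EventuallyEq, ae_nu hc.pos]
    intro x hx
    rw [TC_apply hp hp1 hc k hx, hk x hx]
    have hμ := hc.pos x hx
    have h1 : ∑ y ∈ F, ((a x y / μ x : ℝ) : 𝕜) = 1 := by
      rw [← map_sum, ← Finset.sum_div, hc.row x hx, div_self hμ.ne']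
      simp
    calc mkE 𝕜 F μ a k x = ∑ y ∈ F, ((a x y / μ x : ℝ) : 𝕜) • e :=
          Finset.sum_congr rfl fun y hy => by rw [hk y hy]
      _ = e := by rw [← Finset.sum_smul, h1, one_smul]
  have hpow : ((TC 𝕜 hp hp1 hc) ^ n) k = k := by
    induction n with
    | zero => simp
    | succ n ih => rw [pow_succ, mul_apply_eq_comp, hfix, ih]
  have hkpos : 0 < ‖k‖ := by
    rw [norm_pos_iff]
    intro h0
    obtain ⟨x, hx⟩ := hne
    have h1 := (ae_nu hc.pos _).mp (Lp.coeFn_zero E p (nu F μ)) x hx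
    rw [← h0, hk x hx] at h1
    exact he h1
  have h2 := ((TC 𝕜 hp hp1 hc (E := E)) ^ n).le_opNorm k
  rw [hpow] at h2
  by_contra h3
  push Not at h3
  nlinarith

end Pool.Agent.MPe081a1
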