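import Pool.Agent.MP_e081a1_an.Oper

/-!
The `p`-operator norm localization property implies uniform local amenability with measures,
`1 < p < ∞`.
-/

set_option autoImplicit false

open MeasureTheory
open scoped ENNReal

namespace Pool.Agent.MPe081a1

/-- bounded geometry: for every `R > 0` the balls of radius `R` are finite with uniformly bounded
cardinality. -/
def BoundedGeometry (X : Type*) [MetricSpace X] : Prop :=
  ∀ R : ℝ, 0 < R → ∃ N : ℕ, ∀ x : X, (Metric.ball x R).Finite ∧ (Metric.ball x R).ncard ≤ N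

/-- The operator `T` on `L^p(X, ν; E)` has propagation at most `r`: any `(x, y)` with
`dist x y > r` has neighbourhoods `U`, `V` with `χ_V T χ_U = 0`. -/
def PropagationLE {𝕜 : Type*} [RCLike 𝕜] {E : Type*} [NormedAddCommGroup E] [NormedSpace 𝕜 E]
    {X : Type*} [MetricSpace X] [MeasurableSpace X] {p : ℝ≥0∞} [Fact (1 ≤ p)] {ν : Measure X}
    (T : Lp E p ν →L[𝕜] Lp E p ν) (r : ℝ) : Prop :=
  ∀ x y : X, r < dist x y →
    ∃ U V : Set X, IsOpen U ∧ IsOpen V ∧ x ∈ U ∧ y ∈ V ∧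
      ∀ g : Lp E p ν, (∀ᵐ z ∂ν, z ∉ U → (g : X → E) z = 0) →
        ∀ᵐ z ∂ν, z ∈ V → (T g : X → E) z = 0

/-- The `p`-operator norm localization property of `X` with coefficients in the normed space `E`
over `𝕜`. -/
def PONL (𝕜 : Type*) [RCLike 𝕜] (E : Type*) [NormedAddCommGroup E] [NormedSpace 𝕜 E]
    (p : ℝ≥0∞) [Fact (1 ≤ p)] (X : Type*) [MetricSpace X] [MeasurableSpace X] : Prop :=
  ∃ c : ℝ, 0 < c ∧ c ≤ 1 ∧ ∃ f : ℕ → ℕ, Monotone f ∧
    ∀ (ν : Measure X) [IsLocallyFiniteMeasure ν], ν ≠ 0 → ∀ r : ℕ,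
      ∀ T : Lp E p ν →L[𝕜] Lp E p ν, PropagationLE T r →
        ∃ ξ : Lp E p ν, ξ ≠ 0 ∧
          (∃ S : Set X, (∀ a ∈ S, ∀ b ∈ S, dist a b ≤ (f r : ℝ)) ∧
            ∀ᵐ z ∂ν, z ∉ S → (ξ : X → E) z = 0) ∧
          c * ‖T‖ * ‖ξ‖ ≤ ‖T ξ‖

lemma isOpen_singleton_of_finite_ball {X : Type*} [MetricSpace X] {x : X} {R : ℝ} (hR : 0 < R)
    (h : (Metric.ball x R).Finite) : IsOpen ({x} : Set X) := by
  have h1 : IsClosed (Metric.ball x R \ {x}) := (h.subset Set.sdiff_subset).isClosed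
  have h2 : ({x} : Set X) = Metric.ball x R ∩ (Metric.ball x R \ {x})ᶜ := by
    ext z
    simp only [Set.mem_singleton_iff, Set.mem_inter_iff, Set.mem_compl_iff, Set.mem_sdiff, not_and,
      not_not]
    constructor
    · rintro rfl
      exact ⟨Metric.mem_ball_self hR, fun _ => rfl⟩
    · rintro ⟨h3, h4⟩
      exact h4 h3
  rw [h2]
  exact Metric.isOpen_ball.inter h1.isOpen_compl

section

variable {X : Type*} [MetricSpace X] [MeasurableSpace X] [MeasurableSingletonClass X]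
variable {𝕜 : Type*} [RCLike 𝕜] {E : Type*} [NormedAddCommGroup E] [NormedSpace 𝕜 E]

open Classical in
/-- propagation of the powers -/
lemma pow_support {p : ℝ≥0∞} [Fact (1 ≤ p)] (hp : p ≠ ∞) (hp1 : 1 < p.toReal)
    {R : ℝ} (hR : 0 < R) {N : ℕ} {F : Finset X} {μ : X → ℝ} (hc : Chain F μ (aa R N F μ))
    (g : Lp E p (nu F μ)) (k : ℕ) {x : X} (hx : x ∈ F)
    (hne : (((TC 𝕜 hp hp1 hc) ^ k) g : X → E) x ≠ 0) :
    ∃ y ∈ F, (g : X → E) y ≠ 0 ∧ dist x y ≤ k * R := by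
  induction k generalizing x with
  | zero =>
    refine ⟨x, hx, ?_, by simp⟩
    simpa using hne
  | succ k ih =>
    rw [pow_succ', mul_apply_eq_comp, TC_apply hp hp1 hc _ hx] at hne
    obtain ⟨y, hy, hy2⟩ := Finset.exists_ne_zero_of_sum_ne_zero hne
    have h1 : aa R N F μ x y ≠ 0 := by
      intro h0
      apply hy2
      simp [h0]
    have h2 : (((TC 𝕜 hp hp1 hc) ^ k) g : X → E) y ≠ 0 := by
      intro h0
      apply hy2
      rw [h0, smul_zero]
    obtain ⟨z, hz, hz2, hz3⟩ := ih hy h2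
    have h3 : dist x y ≤ R := by
      by_cases hxy : x = y
      · rw [hxy, dist_self]; exact hR.le
      · simp only [aa, if_neg hxy, cond] at h1
        by_contra h4
        push Not at h4
        exact h1 (if_neg (not_lt.mpr h4.le))
    refine ⟨z, hz, hz2, ?_⟩
    push_cast
    calc dist x z ≤ dist x y + dist y z := dist_triangle _ _ _
      _ ≤ R + k * R := add_le_add h3 hz3
      _ = (k + 1) * R := by ring

open Classical in
/-- `p`-ONL implies uniform local amenability with measures -/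
theorem ula_of_ponl [Nontrivial E] {p : ℝ≥0∞} [Fact (1 ≤ p)] (hp : p ≠ ∞) (hp1 : p ≠ 1)
    (hBG : BoundedGeometry X) (hO : PONL 𝕜 E p X) {R : ℝ} (hR : 0 < R) {ε : ℝ} (hε : 0 < ε) :
    ∃ S : ℝ, 0 ≤ S ∧ ∀ (μ : X → ℝ) (_ : ∀ x, 0 ≤ μ x) (F : Finset X) (_ : ∀ x, x ∈ F ↔ 0 < μ x)
      (_ : F.Nonempty),
      ∃ A : Set X, (∀ a ∈ A, ∀ b ∈ A, dist a b ≤ S) ∧ 0 < ∑ x ∈ F.filter (· ∈ A), μ x ∧
        ∑ x ∈ F.filter (fun x => x ∈ A ∧ ∃ y ∉ A, dist x y < R), μ x ≤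
          ε * ∑ x ∈ F.filter (· ∈ A), μ x := by
  have hple : 1 ≤ p := Fact.out
  have hp0 : p ≠ 0 := (zero_lt_one.trans_le hple).ne'
  have hq : 1 < p.toReal := by
    rw [← ENNReal.toReal_one, ENNReal.toReal_lt_toReal ENNReal.one_ne_top hp]
    exact lt_of_le_of_ne hple hp1.symm
  have hq0 : 0 < p.toReal := by linarith
  obtain ⟨c, hc0, hc1, f, -, hO⟩ := hO
  obtain ⟨N₀, hN₀⟩ := hBG R hR
  have hN : 0 < N₀ + 1 := Nat.succ_pos _
  have hball : ∀ x : X, (Metric.ball x R).Finite ∧ (Metric.ball x R).ncard ≤ N₀ + 1 :=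
    fun x => ⟨(hN₀ x).1, (hN₀ x).2.trans (Nat.le_succ _)⟩
  obtain ⟨κ, hκ, hfix⟩ := fix_boundary hR hN hball hε
  obtain ⟨δ, hδ, htv⟩ := tv_bound (X := X) hq (show (0 : ℝ) < κ / 2 by positivity)
  -- the ratio
  obtain ⟨ρ, hρ0, hρ1, hρq⟩ : ∃ ρ : ℝ, 0 < ρ ∧ ρ < 1 ∧ 1 - δ ≤ ρ ^ p.toReal := by
    have hb : (0 : ℝ) < 1 - min δ (1 / 2) := by
      have : min δ (1 / 2) ≤ 1 / 2 := min_le_right _ _
      linarith
    refine ⟨(1 - min δ (1 / 2)) ^ (1 / p.toReal), Real.rpow_pos_of_pos hb _, ?_, ?_⟩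
    · apply Real.rpow_lt_one hb.le
      · have : (0 : ℝ) < min δ (1 / 2) := by positivity
        linarith
      · positivity
    · rw [← Real.rpow_mul hb.le, one_div_mul_cancel hq0.ne', Real.rpow_one]
      have := min_le_left δ (1 / 2)
      linarith
  obtain ⟨n, hn⟩ := exists_pow_lt_of_lt_one hc0 hρ1
  set r : ℕ := ⌈n * R⌉₊ with hr
  have hnr : n * R ≤ r := Nat.le_ceil _
  refine ⟨f r + 2 * (n * R) + 2 * R, by positivity, ?_⟩
  intro μ hμ F hF hne
  have hFpos : ∀ x ∈ F, 0 < μ x := fun x hx => (hF x).mp hx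
  have hch : Chain F μ (aa R (N₀ + 1) F μ) := aa_chain hN hball hμ F hFpos
  set T := TC 𝕜 (E := E) hp hq hch with hT
  have hprop : PropagationLE (T ^ n) (r : ℝ) := by
    intro x y hxy
    refine ⟨{x}, {y}, isOpen_singleton_of_finite_ball hR (hball x).1,
      isOpen_singleton_of_finite_ball hR (hball y).1, rfl, rfl, ?_⟩
    intro g hg
    rw [ae_nu hFpos] at hg ⊢
    intro z hz hzy
    rw [Set.mem_singleton_iff] at hzy
    subst hzy
    by_contra h0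
    obtain ⟨w, hw, hw2, hw3⟩ := pow_support hp hq hR hch g n hz h0
    have hwx : w = x := by
      by_contra hwx
      exact hw2 (hg w hw hwx)
    rw [hwx, dist_comm] at hw3
    linarith
  obtain ⟨ξ, hξ0, ⟨S', hS', hξS⟩, hξ⟩ := hO (nu F μ) (nu_ne_zero hFpos hne) r (T ^ n) hprop
  rw [ae_nu hFpos] at hξS
  have hξpos : 0 < ‖ξ‖ := norm_pos_iff.mpr hξ0
  have h1 : c * ‖ξ‖ ≤ ‖(T ^ n) ξ‖ := by
    have h2 := one_le_norm_pow (𝕜 := 𝕜) (E := E) hp hq hch hne n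
    refine le_trans ?_ hξ
    have : c * 1 * ‖ξ‖ ≤ c * ‖T ^ n‖ * ‖ξ‖ := by gcongr
    linarith
  -- monotonicity
  have hmono : ∀ k m : ℕ, k ≤ m → ‖(T ^ m) ξ‖ ≤ ‖(T ^ k) ξ‖ := by
    intro k m hkm
    induction m, hkm using Nat.le_induction with
    | base => exact le_rfl
    | succ m _ ih =>
      rw [pow_succ', mul_apply_eq_comp]
      exact (TC_norm_le hp hq hch _).trans ih
  -- a good power
  obtain ⟨k, hkn, hk⟩ : ∃ k < n, ρ * ‖(T ^ k) ξ‖ ≤ ‖(T ^ (k + 1)) ξ‖ := by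
    by_contra hcon
    push Not at hcon
    have h3 : ∀ k ≤ n, ‖(T ^ k) ξ‖ ≤ ρ ^ k * ‖ξ‖ := by
      intro k hk
      induction k with
      | zero => simp
      | succ k ih =>
        have h4 := hcon k (by omega)
        have h5 := ih (by omega)
        calc ‖(T ^ (k + 1)) ξ‖ ≤ ρ * ‖(T ^ k) ξ‖ := h4.le
          _ ≤ ρ * (ρ ^ k * ‖ξ‖) := by gcongr
          _ = ρ ^ (k + 1) * ‖ξ‖ := by ring
    have h4 := h3 n le_rfl
    have h5 : ρ ^ n * ‖ξ‖ < c * ‖ξ‖ := by gcongr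
    linarith
  set η := (T ^ k) ξ with hη
  have hηpos : 0 < ‖η‖ := by
    have := hmono k n hkn.le
    have h6 : 0 < c * ‖ξ‖ := by positivity
    linarith
  have hTη : ρ * ‖η‖ ≤ ‖T η‖ := by
    have h7 : (T ^ (k + 1)) ξ = T η := by rw [pow_succ', mul_apply_eq_comp]
    rw [← h7]; exact hk
  have hsumη := norm_rpow_nu hFpos hp0 hp η
  have hsumTη := norm_rpow_nu hFpos hp0 hp (T η)
  set h : X → ℝ := fun x => ‖(η : X → E) x‖ with hh
  have hh0 : ∀ x, 0 ≤ h x := fun x => norm_nonneg _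
  have hmain : (1 - δ) * ∑ x ∈ F, μ x * (h x) ^ p.toReal ≤
      ∑ x ∈ F, μ x * (mk F μ (aa R (N₀ + 1) F μ) h x) ^ p.toReal := by
    have h8 : ‖T η‖ ^ p.toReal ≤ ∑ x ∈ F, μ x * (mk F μ (aa R (N₀ + 1) F μ) h x) ^ p.toReal := by
      rw [hsumTη]
      refine Finset.sum_le_sum fun x hx => ?_
      have := hFpos x hx
      have h9 : ‖(T η : X → E) x‖ ≤ mk F μ (aa R (N₀ + 1) F μ) h x := by
        rw [hT, TC_apply hp hq hch η hx]
        exact norm_mkE_le hch (η : X → E) hx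
      gcongr
    refine le_trans ?_ h8
    show (1 - δ) * ∑ x ∈ F, μ x * ‖(η : X → E) x‖ ^ p.toReal ≤ _
    rw [← hsumη]
    calc (1 - δ) * ‖η‖ ^ p.toReal ≤ ρ ^ p.toReal * ‖η‖ ^ p.toReal := by gcongr
      _ = (ρ * ‖η‖) ^ p.toReal := (Real.mul_rpow hρ0.le (norm_nonneg _)).symm
      _ ≤ ‖T η‖ ^ p.toReal := by gcongr
  have htvη := htv F μ _ hch h hh0 hmain
  have hpos : 0 < ∑ x ∈ F, μ x * (h x) ^ p.toReal := by
    show 0 < ∑ x ∈ F, μ x * ‖(η : X → E) x‖ ^ p.toReal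
    rw [← hsumη]
    positivity
  obtain ⟨E₀, hE₀F, hE₀ne, hE₀pos, hcut⟩ := exists_level (fun x hx y hy => hch.nonneg x hx y hy)
    (fun x => h x ^ p.toReal) (fun x => Real.rpow_nonneg (hh0 x) _)
    (show (0 : ℝ) < κ / 2 by positivity) htvη hpos
  obtain ⟨A, hA1, hA2, hA3, hA4⟩ := hfix μ hμ F E₀ hF hE₀F hE₀ne (by
    refine hcut.trans (le_of_eq ?_)
    ring)
  refine ⟨A, ?_, hA3, hA4⟩
  -- diameter
  have hnear : ∀ y ∈ A, ∃ z ∈ S', dist y z ≤ R + n * R := by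
    intro y hy
    obtain ⟨x, hx, hxy⟩ := hA2 y hy
    have hηx : (η : X → E) x ≠ 0 := by
      intro h0
      have := hE₀pos x hx
      simp only [hh, h0, norm_zero, Real.zero_rpow hq0.ne'] at this
      exact lt_irrefl _ this
    obtain ⟨z, hz, hz2, hz3⟩ := pow_support hp hq hR hch ξ k (hE₀F hx) hηx
    refine ⟨z, ?_, ?_⟩
    · by_contra hzS
      exact hz2 (hξS z hz hzS)
    · calc dist y z ≤ dist y x + dist x z := dist_triangle _ _ _
        _ ≤ R + k * R := by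
            rw [dist_comm y x]; exact add_le_add hxy.le hz3
        _ ≤ R + n * R := by
            have : (k : ℝ) ≤ n := by exact_mod_cast hkn.le
            gcongr
  intro a ha b hb
  obtain ⟨z, hz, hz2⟩ := hnear a ha
  obtain ⟨w, hw, hw2⟩ := hnear b hb
  calc dist a b ≤ dist a z + dist z w + dist w b := dist_triangle4 _ _ _ _
    _ ≤ (R + n * R) + f r + (R + n * R) := by
        rw [dist_comm w b]
        exact add_le_add (add_le_add hz2 (hS' z hz w hw)) hw2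
    _ = _ := by ring

end

end Pool.Agent.MPe081a1
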