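import Pool.Agent.MP_e081a1_an.Higson
import Pool.Agent.MP_e081a1_an.Ula

/-!
From probability kernels to the sets in Yu's definition of property A, and the main theorem.
-/

set_option autoImplicit false

open MeasureTheory
open scoped ENNReal

namespace Pool.Agent.MPe081a1

/-- Yu's property A. -/
def PropertyA (X : Type*) [MetricSpace X] : Prop :=
  ∀ R : ℝ, 0 < R → ∀ ε : ℝ, 0 < ε →
    ∃ S : ℝ, ∃ A : X → Set (X × ℕ),
      (∀ x, (A x).Finite) ∧ (∀ x, (x, 0) ∈ A x) ∧
      (∀ x, ∀ w ∈ A x, dist w.1 x ≤ S) ∧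
      ∀ x y, dist x y < R →
        ((symmDiff (A x) (A y)).ncard : ℝ) < ε * ((A x ∩ A y).ncard : ℝ)

variable {X : Type*} [MetricSpace X]

/-- the finite set of pairs `(z, j)` with `z ∈ B` and `lo z ≤ j < hi z` -/
def box (B : Finset X) (lo hi : X → ℕ) : Finset (X × ℕ) :=
  (B.sigma fun z => Finset.Ico (lo z) (hi z)).map (Equiv.sigmaEquivProd X ℕ).toEmbedding

lemma mem_box {B : Finset X} {lo hi : X → ℕ} {w : X × ℕ} :
    w ∈ box B lo hi ↔ w.1 ∈ B ∧ lo w.1 ≤ w.2 ∧ w.2 < hi w.1 := by
  obtain ⟨z, j⟩ := w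
  simp only [box, Finset.mem_map, Finset.mem_sigma, Finset.mem_Ico]
  constructor
  · rintro ⟨⟨z', j'⟩, h, he⟩
    simp only [Equiv.coe_toEmbedding, Equiv.sigmaEquivProd_apply, Prod.mk.injEq] at he
    obtain ⟨rfl, rfl⟩ := he
    exact h
  · intro h
    exact ⟨⟨z, j⟩, h, rfl⟩

lemma card_box (B : Finset X) (lo hi : X → ℕ) :
    (box B lo hi).card = ∑ z ∈ B, (hi z - lo z) := by
  simp [box, Finset.card_sigma]

open Classical in
theorem exists_sets {R ε : ℝ} (hε : 0 < ε) {S : ℝ} {N : ℕ}
    (hfin : ∀ x : X, (Metric.closedBall x S).Finite)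
    (hN : ∀ x : X, (Metric.closedBall x S).ncard ≤ N) (hS : 0 ≤ S)
    {ε₀ : ℝ} (hε₀ : ε₀ ≤ ε / 32) (hε₀' : ε₀ ≤ 1 / 16)
    (ζ : X → X → ℝ) (hζ0 : ∀ x z, 0 ≤ ζ x z) (hζS : ∀ x z, S < dist x z → ζ x z = 0)
    (hζsum : ∀ x, ∑ z ∈ (hfin x).toFinset, ζ x z = 1)
    (hζd : ∀ x y, dist x y < R → ∀ B : Finset X, ∑ z ∈ B, |ζ x z - ζ y z| ≤ 8 * ε₀) :
    ∃ A : X → Set (X × ℕ),
      (∀ x, (A x).Finite) ∧ (∀ x, (x, 0) ∈ A x) ∧
      (∀ x, ∀ w ∈ A x, dist w.1 x ≤ S) ∧
      ∀ x y, dist x y < R →
        ((symmDiff (A x) (A y)).ncard : ℝ) < ε * ((A x ∩ A y).ncard : ℝ) := by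
  obtain ⟨M, hM⟩ := exists_nat_gt (4 * N / ε)
  have hM' : 4 * N < ε * M := by
    rw [div_lt_iff₀ hε] at hM
    linarith
  let n : X → X → ℕ := fun x z => if dist x z ≤ S then ⌊M * ζ x z⌋₊ + 1 else 0
  have hn1 : ∀ x z, (M : ℝ) * ζ x z ≤ n x z := by
    intro x z
    by_cases h : dist x z ≤ S
    · simp only [n, h, if_true]
      push_cast
      exact (Nat.lt_floor_add_one _).le
    · simp only [n, h, if_false, hζS x z (not_le.mp h)]
      simp
  have hn2 : ∀ x z, (n x z : ℝ) ≤ M * ζ x z + 1 := by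
    intro x z
    by_cases h : dist x z ≤ S
    · simp only [n, h, if_true]
      push_cast
      have := Nat.floor_le (show 0 ≤ (M : ℝ) * ζ x z by have := hζ0 x z; positivity)
      linarith
    · simp only [n, h, if_false, hζS x z (not_le.mp h)]
      simp
  have hn0 : ∀ x z, z ∉ (hfin x).toFinset → n x z = 0 := by
    intro x z hz
    rw [Set.Finite.mem_toFinset, Metric.mem_closedBall, dist_comm] at hz
    simp only [n, hz, if_false]
  let A : X → Set (X × ℕ) := fun x => (box (hfin x).toFinset (fun _ => 0) (n x) : Set (X × ℕ))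
  have hA : ∀ x w, w ∈ A x ↔ w.2 < n x w.1 := by
    intro x w
    simp only [A, Finset.mem_coe, mem_box]
    constructor
    · rintro ⟨_, _, h⟩; exact h
    · intro h
      refine ⟨?_, Nat.zero_le _, h⟩
      by_contra hz
      rw [hn0 x w.1 hz] at h
      exact absurd h (Nat.not_lt_zero _)
  refine ⟨A, fun x => Finset.finite_toSet _, fun x => ?_, fun x w hw => ?_, fun x y hxy => ?_⟩
  · rw [hA]
    have : dist x x ≤ S := by rw [dist_self]; exact hS
    simp only [n, this, if_true]
    omega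
  · rw [hA] at hw
    by_contra h
    rw [dist_comm] at h
    simp only [n, h, if_false] at hw
    omega
  · set B : Finset X := (hfin x).toFinset ∪ (hfin y).toFinset with hB
    have hzx : ∀ z, z ∉ B → n x z = 0 := fun z hz => hn0 x z fun h => hz (Finset.mem_union_left _ h)
    have hzy : ∀ z, z ∉ B → n y z = 0 := fun z hz => hn0 y z fun h => hz (Finset.mem_union_right _ h)
    have hBcard : (B.card : ℝ) ≤ 2 * N := by
      have h1 : (hfin x).toFinset.card ≤ N := by
        rw [← Set.ncard_eq_toFinset_card _ (hfin x)]; exact hN x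
      have h2 : (hfin y).toFinset.card ≤ N := by
        rw [← Set.ncard_eq_toFinset_card _ (hfin y)]; exact hN y
      have h3 : B.card ≤ N + N := (Finset.card_union_le _ _).trans (Nat.add_le_add h1 h2)
      have h4 : (B.card : ℝ) ≤ N + N := by exact_mod_cast h3
      linarith
    have hsumB : ∀ u : X, (hfin u).toFinset ⊆ B → ∑ z ∈ B, ζ u z = 1 := by
      intro u hu
      rw [← hζsum u]
      symm
      refine Finset.sum_subset hu fun z _ hz => ?_
      rw [Set.Finite.mem_toFinset, Metric.mem_closedBall, not_le, dist_comm] at hz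
      exact hζS u z hz
    have hsx := hsumB x Finset.subset_union_left
    have hsy := hsumB y Finset.subset_union_right
    have hd := hζd x y hxy B
    -- the symmetric difference
    have hsd : symmDiff (A x) (A y) ⊆ ((box B (n y) (n x) ∪ box B (n x) (n y) : Finset (X × ℕ)) :
        Set (X × ℕ)) := by
      intro w hw
      rw [Finset.coe_union]
      rcases hw with ⟨h1, h2⟩ | ⟨h1, h2⟩
      · rw [hA] at h1 h2
        left
        rw [Finset.mem_coe, mem_box]
        refine ⟨?_, not_lt.mp h2, h1⟩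
        by_contra hz
        rw [hzx _ hz] at h1
        omega
      · rw [hA] at h1 h2
        right
        rw [Finset.mem_coe, mem_box]
        refine ⟨?_, not_lt.mp h2, h1⟩
        by_contra hz
        rw [hzy _ hz] at h1
        omega
    have hsdcard : ((symmDiff (A x) (A y)).ncard : ℝ) ≤ M * (8 * ε₀) + 2 * N := by
      have h1 : (symmDiff (A x) (A y)).ncard ≤
          ∑ z ∈ B, ((n x z - n y z) + (n y z - n x z)) := by
        refine (Set.ncard_le_ncard hsd (Finset.finite_toSet _)).trans ?_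
        rw [Set.ncard_coe_finset]
        refine (Finset.card_union_le _ _).trans ?_
        rw [card_box, card_box, Finset.sum_add_distrib]
      have h2 : ((∑ z ∈ B, ((n x z - n y z) + (n y z - n x z)) : ℕ) : ℝ) ≤
          ∑ z ∈ B, (M * |ζ x z - ζ y z| + 1) := by
        push_cast
        refine Finset.sum_le_sum fun z _ => ?_
        have a1 := hn1 x z
        have a2 := hn2 x z
        have a3 := hn1 y z
        have a4 := hn2 y z
        have a5 : (M : ℝ) * |ζ x z - ζ y z| = |M * ζ x z - M * ζ y z| := by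
          rw [← mul_sub, abs_mul, Nat.abs_cast]
        have a6 := le_abs_self ((M : ℝ) * ζ x z - M * ζ y z)
        have a7 := neg_abs_le ((M : ℝ) * ζ x z - M * ζ y z)
        rw [a5]
        rcases le_total (n x z) (n y z) with h | h
        · rw [Nat.sub_eq_zero_of_le h, Nat.cast_sub h]
          push_cast
          linarith
        · rw [Nat.sub_eq_zero_of_le h, Nat.cast_sub h]
          push_cast
          linarith
      have h3 : ((symmDiff (A x) (A y)).ncard : ℝ) ≤
          ((∑ z ∈ B, ((n x z - n y z) + (n y z - n x z)) : ℕ) : ℝ) := by exact_mod_cast h1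
      have h4 : ∑ z ∈ B, ((M : ℝ) * |ζ x z - ζ y z| + 1) =
          M * ∑ z ∈ B, |ζ x z - ζ y z| + B.card := by
        rw [Finset.sum_add_distrib, ← Finset.mul_sum]
        simp
      rw [h4] at h2
      have h5 : (M : ℝ) * ∑ z ∈ B, |ζ x z - ζ y z| ≤ M * (8 * ε₀) := by gcongr
      linarith
    -- the intersection
    have hicard : (M : ℝ) * (1 - 4 * ε₀) ≤ (A x ∩ A y).ncard := by
      have h1 : ((box B (fun _ => 0) (fun z => min (n x z) (n y z)) : Finset (X × ℕ)) :
          Set (X × ℕ)) ⊆ A x ∩ A y := by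
        intro w hw
        rw [Finset.mem_coe, mem_box] at hw
        have := hw.2.2
        rw [lt_min_iff] at this
        exact ⟨(hA x w).mpr this.1, (hA y w).mpr this.2⟩
      have h2 := Set.ncard_le_ncard h1 ((Finset.finite_toSet _).subset Set.inter_subset_left)
      rw [Set.ncard_coe_finset, card_box] at h2
      have h3 : ((∑ z ∈ B, (min (n x z) (n y z) - 0) : ℕ) : ℝ) ≤ (A x ∩ A y).ncard := by
        exact_mod_cast h2
      refine le_trans ?_ h3
      simp only [Nat.sub_zero]
      push_cast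
      have h4 : ∀ z ∈ B, (M : ℝ) * ((ζ x z + ζ y z - |ζ x z - ζ y z|) / 2) ≤
          min (n x z : ℝ) (n y z) := by
        intro z _
        have a1 := hn1 x z
        have a3 := hn1 y z
        have a6 := le_abs_self (ζ x z - ζ y z)
        have a7 := neg_abs_le (ζ x z - ζ y z)
        have hMn : (0 : ℝ) ≤ M := Nat.cast_nonneg _
        refine le_min ?_ ?_
        · refine le_trans ?_ a1
          apply mul_le_mul_of_nonneg_left _ hMn
          linarith
        · refine le_trans ?_ a3
          apply mul_le_mul_of_nonneg_left _ hMn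
          linarith
      refine le_trans ?_ (Finset.sum_le_sum h4)
      rw [← Finset.mul_sum, ← Finset.sum_div, Finset.sum_sub_distrib, Finset.sum_add_distrib,
        hsx, hsy]
      have hMn : (0 : ℝ) ≤ M := Nat.cast_nonneg _
      apply mul_le_mul_of_nonneg_left _ hMn
      linarith
    have hMpos : (0 : ℝ) ≤ M := Nat.cast_nonneg _
    calc ((symmDiff (A x) (A y)).ncard : ℝ) ≤ M * (8 * ε₀) + 2 * N := hsdcard
      _ ≤ M * (ε / 4) + 2 * N := by
          have : 8 * ε₀ ≤ ε / 4 := by linarith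
          gcongr
      _ < M * (ε / 4) + ε * M / 2 := by linarith
      _ = ε * (M * (3 / 4)) := by ring
      _ ≤ ε * (M * (1 - 4 * ε₀)) := by
          have : 3 / 4 ≤ 1 - 4 * ε₀ := by linarith
          gcongr
      _ ≤ ε * (A x ∩ A y).ncard := by gcongr

open Classical in
lemma sum_filter_eq_ind (F : Finset X) (μ : X → ℝ) (A : Set X) :
    ∑ x ∈ F.filter (· ∈ A), μ x = ∑ x ∈ F, μ x * ind A x := by
  rw [Finset.sum_filter]
  refine Finset.sum_congr rfl fun x _ => ?_
  by_cases h : x ∈ A <;> simp [ind, h]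

/-- the main theorem: `p`-ONL implies property A for `1 < p < ∞` -/
theorem propertyA_of_ponl [MeasurableSpace X] [BorelSpace X]
    {𝕜 : Type*} [RCLike 𝕜] {E : Type*} [NormedAddCommGroup E] [NormedSpace 𝕜 E] [Nontrivial E]
    {p : ℝ≥0∞} [Fact (1 ≤ p)] (hp : p ≠ ∞) (hp1 : p ≠ 1)
    (hBG : BoundedGeometry X) (hO : PONL 𝕜 E p X) : PropertyA X := by
  classical
  intro R hR ε hε
  set ε₀ : ℝ := min (ε / 32) (1 / 16) with hε₀
  have hε₀pos : 0 < ε₀ := by positivity
  obtain ⟨S, hS0, hS⟩ := ula_of_ponl hp hp1 hBG hO hR (show (0 : ℝ) < ε₀ / 2 by positivity)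
  have hU : Ula X R (ε₀ / 2) S := by
    intro μ hμ F hF hne
    obtain ⟨A, h1, h2, h3⟩ := hS μ hμ F hF hne
    refine ⟨A, h1, ?_, ?_⟩
    · rw [← sum_filter_eq_ind]
      convert h2
    · rw [← sum_filter_eq_ind, ← sum_filter_eq_ind]
      convert h3 using 1
      refine Finset.sum_congr (Finset.filter_congr fun x _ => ?_) fun _ _ => rfl
      exact Iff.rfl
  obtain ⟨N, hN⟩ := hBG (S + 1) (by linarith)
  have hsub : ∀ x : X, Metric.closedBall x S ⊆ Metric.ball x (S + 1) := fun x =>
    Metric.closedBall_subset_ball (by linarith)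
  have hfin : ∀ x : X, (Metric.closedBall x S).Finite := fun x => (hN x).1.subset (hsub x)
  have hcard : ∀ x : X, (Metric.closedBall x S).ncard ≤ N := fun x =>
    (Set.ncard_le_ncard (hsub x) (hN x).1).trans (hN x).2
  have h16 : ε₀ ≤ 1 / 16 := min_le_right _ _
  obtain ⟨ζ, hζ0, hζS, hζsum, hζd⟩ := exists_kernel hε₀pos (by linarith) hU hfin
  obtain ⟨A, hA⟩ := exists_sets hε hfin hcard hS0 (min_le_left _ _) h16 ζ hζ0 hζS hζsum hζd
  exact ⟨S, A, hA⟩

end Pool.Agent.MPe081a1
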