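import Pool.Agent.MP_e081a1_an.Sets
import Pool.Agent.MP_e081a1_an.OneAll

/-!
The same definitions in a form that prints briefly.
-/

set_option autoImplicit false

open MeasureTheory
open scoped ENNReal

namespace Pool.Agent.MPe081a1

/-- `ξ ∈ L^p(X, ν; E)` vanishes almost everywhere outside `S` -/
def SupportedIn {E : Type*} [NormedAddCommGroup E] {p : ℝ≥0∞} {X : Type*} [MeasurableSpace X]
    {ν : Measure X} (ξ : Lp E p ν) (S : Set X) : Prop :=
  ∀ᵐ z ∂ν, z ∉ S → (ξ : X → E) z = 0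

/-- Let `sup g S` mean that the vector `g` of `V` is supported in the set `S` of points of `X`. The
operator `T` on `V` has propagation at most `r`: any `(x, y)` with `dist x y > r` has open
neighbourhoods `U ∋ x`, `W ∋ y` with `χ_W T χ_U = 0`. -/
def PropLE {X V : Type*} [MetricSpace X] (sup : V → Set X → Prop) (T : V → V) (r : ℝ) : Prop :=
  ∀ x y : X, r < dist x y → ∃ U W : Set X, IsOpen U ∧ IsOpen W ∧ x ∈ U ∧ y ∈ W ∧
    ∀ g : V, sup g U → sup (T g) Wᶜ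

/-- Let `sup g S` mean that the vector `g` of the normed space `V` is supported in the set `S` of
points of `X`. For every `r` and every bounded operator `T` on `V` of propagation at most `r` there
is a nonzero `ξ` in `V`, supported in a set of diameter at most `f r`, with
`c ‖T‖ ‖ξ‖ ≤ ‖T ξ‖`. -/
def Localizes (𝕜 : Type*) [RCLike 𝕜] {X V : Type*} [MetricSpace X] [NormedAddCommGroup V]
    [NormedSpace 𝕜 V] (sup : V → Set X → Prop) (c : ℝ) (f : ℕ → ℕ) : Prop :=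
  ∀ r : ℕ, ∀ T : V →L[𝕜] V, PropLE sup T r → ∃ ξ : V, ξ ≠ 0 ∧
    (∃ S : Set X, (∀ a ∈ S, ∀ b ∈ S, dist a b ≤ (f r : ℝ)) ∧ sup ξ S) ∧ c * ‖T‖ * ‖ξ‖ ≤ ‖T ξ‖

/-- The `p`-operator norm localization property of `X` with coefficients in the normed space `E`
over `𝕜`. -/
def HasONL (𝕜 : Type*) [RCLike 𝕜] (E : Type*) [NormedAddCommGroup E] [NormedSpace 𝕜 E]
    (p : ℝ≥0∞) [Fact (1 ≤ p)] (X : Type*) [MetricSpace X] [MeasurableSpace X] : Prop :=
  ∃ c : ℝ, 0 < c ∧ c ≤ 1 ∧ ∃ f : ℕ → ℕ, Monotone f ∧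
    ∀ (ν : Measure X) [IsLocallyFiniteMeasure ν], ν ≠ 0 →
      Localizes 𝕜 (fun (g : Lp E p ν) (S : Set X) => SupportedIn g S) c f

theorem propLE_iff {𝕜 : Type*} [RCLike 𝕜] {E : Type*} [NormedAddCommGroup E] [NormedSpace 𝕜 E]
    {X : Type*} [MetricSpace X] [MeasurableSpace X] {p : ℝ≥0∞} [Fact (1 ≤ p)] {ν : Measure X}
    (T : Lp E p ν →L[𝕜] Lp E p ν) (r : ℝ) :
    PropLE (fun (g : Lp E p ν) (S : Set X) => SupportedIn g S) T r ↔ PropagationLE T r := by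
  unfold PropLE PropagationLE SupportedIn
  simp only [Set.mem_compl_iff, not_not]

theorem hasONL_iff {𝕜 : Type*} [RCLike 𝕜] {E : Type*} [NormedAddCommGroup E] [NormedSpace 𝕜 E]
    (p : ℝ≥0∞) [Fact (1 ≤ p)] (X : Type*) [MetricSpace X] [MeasurableSpace X] :
    HasONL 𝕜 E p X ↔ PONL 𝕜 E p X := by
  constructor
  · rintro ⟨c, h1, h2, f, hf, h⟩
    refine ⟨c, h1, h2, f, hf, fun ν _ hν r T hT => ?_⟩
    obtain ⟨ξ, h3, h4, h5⟩ := h ν hν r T ((propLE_iff T r).mpr hT)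
    exact ⟨ξ, h3, h4, h5⟩
  · rintro ⟨c, h1, h2, f, hf, h⟩
    refine ⟨c, h1, h2, f, hf, fun ν _ hν r T hT => ?_⟩
    obtain ⟨ξ, h3, h4, h5⟩ := h ν hν r T ((propLE_iff T r).mp hT)
    exact ⟨ξ, h3, h4, h5⟩

end Pool.Agent.MPe081a1
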