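import Mathlib

/-!
A quantitative strict convexity inequality for `s ↦ s ^ q`, `q > 1`.
-/

set_option autoImplicit false

namespace Pool.Agent.MPe081a1

/-- the two point convexity defect -/
noncomputable def defect (q a b : ℝ) : ℝ := (a ^ q + b ^ q) / 2 - ((a + b) / 2) ^ q

lemma defect_nonneg {q : ℝ} (hq : 1 < q) {a b : ℝ} (ha : 0 ≤ a) (hb : 0 ≤ b) :
    0 ≤ defect q a b := by
  have h := (strictConvexOn_rpow hq).convexOn.2 (show a ∈ Set.Ici (0 : ℝ) from ha)
    (show b ∈ Set.Ici (0 : ℝ) from hb) (show (0 : ℝ) ≤ 1 / 2 by norm_num)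
    (show (0 : ℝ) ≤ 1 / 2 by norm_num) (by norm_num)
  simp only [smul_eq_mul] at h
  have e : (1 / 2 * a + 1 / 2 * b : ℝ) = (a + b) / 2 := by ring
  rw [e] at h
  unfold defect
  linarith

lemma defect_pos {q : ℝ} (hq : 1 < q) {a b : ℝ} (ha : 0 ≤ a) (hb : 0 ≤ b) (hab : a ≠ b) :
    0 < defect q a b := by
  have h := (strictConvexOn_rpow hq).2 (show a ∈ Set.Ici (0 : ℝ) from ha)
    (show b ∈ Set.Ici (0 : ℝ) from hb) hab (show (0 : ℝ) < 1 / 2 by norm_num)
    (show (0 : ℝ) < 1 / 2 by norm_num) (by norm_num)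
  simp only [smul_eq_mul] at h
  have e : (1 / 2 * a + 1 / 2 * b : ℝ) = (a + b) / 2 := by ring
  rw [e] at h
  unfold defect
  linarith

lemma defect_scale {q : ℝ} {a b c : ℝ} (ha : 0 ≤ a) (hb : 0 ≤ b) (hc : 0 ≤ c) :
    defect q (c * a) (c * b) = c ^ q * defect q a b := by
  unfold defect
  rw [Real.mul_rpow hc ha, Real.mul_rpow hc hb, show (c * a + c * b) / 2 = c * ((a + b) / 2) by ring,
    Real.mul_rpow hc (by positivity)]
  ring

/-- the two point inequality -/
lemma two_point {q : ℝ} (hq : 1 < q) {κ : ℝ} (hκ : 0 < κ) :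
    ∃ C : ℝ, 0 < C ∧ ∀ a b : ℝ, 0 ≤ a → 0 ≤ b →
      |a ^ q - b ^ q| ≤ κ * (a ^ q + b ^ q) + C * defect q a b := by
  have hq0 : 0 < q := by linarith
  -- the function on the segment
  let φ : ℝ → ℝ := fun s => |s ^ q - (1 - s) ^ q| - κ * (s ^ q + (1 - s) ^ q)
  let d : ℝ → ℝ := fun s => defect q s (1 - s)
  have hcpow : Continuous fun s : ℝ => s ^ q := Real.continuous_rpow_const hq0.le
  have hcpow' : Continuous fun s : ℝ => (1 - s) ^ q := hcpow.comp (continuous_const.sub continuous_id)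
  have hφ : Continuous φ := by
    exact ((hcpow.sub hcpow').abs).sub (continuous_const.mul (hcpow.add hcpow'))
  have hd : Continuous d := by
    show Continuous fun s : ℝ => (s ^ q + (1 - s) ^ q) / 2 - ((s + (1 - s)) / 2) ^ q
    have : (fun s : ℝ => (s ^ q + (1 - s) ^ q) / 2 - ((s + (1 - s)) / 2) ^ q) =
        fun s : ℝ => (s ^ q + (1 - s) ^ q) / 2 - (1 / 2 : ℝ) ^ q := by
      funext s; congr 2; ring
    rw [this]
    exact ((hcpow.add hcpow').div_const 2).sub continuous_const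
  let K : Set ℝ := Set.Icc 0 1 ∩ {s | 0 ≤ φ s}
  have hK : IsCompact K := isCompact_Icc.inter_right (isClosed_le continuous_const hφ)
  have hpos : ∀ s ∈ K, 0 < d s := by
    rintro s ⟨⟨h0, h1⟩, hs⟩
    apply defect_pos hq h0 (by linarith)
    intro heq
    have hs' : 0 ≤ |s ^ q - (1 - s) ^ q| - κ * (s ^ q + (1 - s) ^ q) := hs
    rw [← heq, sub_self, abs_zero] at hs'
    have hs2 : s = 1 / 2 := by linarith
    have : 0 < s ^ q := Real.rpow_pos_of_pos (by linarith) q
    nlinarith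
  have hm : ∃ m : ℝ, 0 < m ∧ ∀ s ∈ K, m ≤ d s := by
    rcases K.eq_empty_or_nonempty with h | h
    · exact ⟨1, one_pos, by simp [h]⟩
    · obtain ⟨s, hs, hmin⟩ := hK.exists_isMinOn h hd.continuousOn
      exact ⟨d s, hpos s hs, fun t ht => hmin ht⟩
  obtain ⟨m, hm0, hm⟩ := hm
  refine ⟨1 / m, by positivity, ?_⟩
  -- on the segment
  have hseg : ∀ s ∈ Set.Icc (0 : ℝ) 1, φ s ≤ 1 / m * d s := by
    rintro s ⟨h0, h1⟩
    by_cases hs : 0 ≤ φ s
    · have h2 : m ≤ d s := hm s ⟨⟨h0, h1⟩, hs⟩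
      have h3 : φ s ≤ 1 := by
        have ha : s ^ q ≤ 1 := Real.rpow_le_one h0 h1 hq0.le
        have ha0 : 0 ≤ s ^ q := Real.rpow_nonneg h0 q
        have hb : (1 - s) ^ q ≤ 1 := Real.rpow_le_one (by linarith) (by linarith) hq0.le
        have hb0 : 0 ≤ (1 - s) ^ q := Real.rpow_nonneg (by linarith) q
        have : |s ^ q - (1 - s) ^ q| ≤ 1 := abs_le.mpr ⟨by linarith, by linarith⟩
        show |s ^ q - (1 - s) ^ q| - κ * (s ^ q + (1 - s) ^ q) ≤ 1
        nlinarith
      calc φ s ≤ 1 := h3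
        _ = 1 / m * m := by field_simp
        _ ≤ 1 / m * d s := by gcongr
    · push Not at hs
      have h2 : 0 ≤ d s := defect_nonneg hq h0 (by linarith)
      have : 0 ≤ 1 / m * d s := by positivity
      linarith
  intro a b ha hb
  rcases (add_nonneg ha hb).eq_or_lt with h | h
  · have ha0 : a = 0 := by linarith
    have hb0 : b = 0 := by linarith
    subst ha0; subst hb0
    unfold defect
    simp [Real.zero_rpow hq0.ne']
  · set c := a + b with hc
    have hs : a / c ∈ Set.Icc (0 : ℝ) 1 :=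
      ⟨by positivity, by rw [div_le_one h]; linarith⟩
    have h1 := hseg _ hs
    have e1 : 1 - a / c = b / c := by field_simp; linarith
    simp only [φ, d, e1] at h1
    have ea : a = c * (a / c) := by field_simp
    have eb : b = c * (b / c) := by field_simp
    have hac : 0 ≤ a / c := by positivity
    have hbc : 0 ≤ b / c := by positivity
    have hcq : 0 < c ^ q := Real.rpow_pos_of_pos h q
    have e2 : defect q a b = c ^ q * defect q (a / c) (b / c) := by
      conv_lhs => rw [ea, eb]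
      exact defect_scale hac hbc h.le
    have e3 : a ^ q = c ^ q * (a / c) ^ q := by
      conv_lhs => rw [ea]
      exact Real.mul_rpow h.le hac
    have e4 : b ^ q = c ^ q * (b / c) ^ q := by
      conv_lhs => rw [eb]
      exact Real.mul_rpow h.le hbc
    rw [e2, e3, e4, ← mul_sub, abs_mul, abs_of_pos hcq]
    nlinarith

end Pool.Agent.MPe081a1
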